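import Pool.Agent.K4H4.SB.Four

set_option autoImplicit false

/-! The mean fourth power of a centred sum of functions with values in `[0, 1]`. -/

namespace Pool.Agent.K4H4.SB
open Finset
open Pool.Agent.K4H4.CL
open Pool.Agent.TH894.NE (box mem_box card_box Per mean two_mod mean_mono mean_const mean_add mean_mul)

variable {d : ℕ}

lemma meanZ_mono {q : ℕ} {f g : (Fin d → ℤ) → ℝ} (h : ∀ t, f t ≤ g t) : meanZ q f ≤ meanZ q g := by
  unfold meanZ
  exact div_le_div_of_nonneg_right (sum_le_sum fun n _ => h _) (by positivity)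

lemma meanZ_const {q : ℕ} (hq : 1 ≤ q) (c : ℝ) : meanZ (d := d) q (fun _ => c) = c := by
  unfold meanZ
  rw [sum_const, Fintype.card_piFinset_const, card_range, nsmul_eq_mul]
  have : (q : ℝ) ≠ 0 := by exact_mod_cast (by omega : q ≠ 0)
  push_cast
  field_simp

lemma meanZ_add {q : ℕ} (f g : (Fin d → ℤ) → ℝ) : meanZ q (fun t => f t + g t) = meanZ q f + meanZ q g := by
  unfold meanZ
  rw [sum_add_distrib, add_div]

lemma meanZ_mul {q : ℕ} (c : ℝ) (f : (Fin d → ℤ) → ℝ) : meanZ q (fun t => c * f t) = c * meanZ q f := by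
  unfold meanZ
  rw [← mul_sum, mul_div_assoc]

lemma meanZ_sum {q : ℕ} {ι : Type} (I : Finset ι) (f : ι → (Fin d → ℤ) → ℝ) : meanZ q (fun t => ∑ i ∈ I, f i t) = ∑ i ∈ I, meanZ q (f i) := by
  unfold meanZ
  rw [sum_comm, sum_div]

lemma meanZ_nonneg {q : ℕ} {f : (Fin d → ℤ) → ℝ} (h : ∀ t, 0 ≤ f t) : 0 ≤ meanZ q f := by
  unfold meanZ
  exact div_nonneg (sum_nonneg fun n _ => h _) (by positivity)

lemma mean_sh_nonneg {q : ℕ} (hq : 1 ≤ q) {g : (Fin d → ℤ) → ℝ} (hg : PerZ q g) (u : Fin d → ℤ) (h : ∀ t, 0 ≤ g t) : 0 ≤ mean d q (sh u g) := by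
  rw [mean_sh hq hg]
  exact meanZ_nonneg h

lemma mean_sh_le {q : ℕ} (hq : 1 ≤ q) {g : (Fin d → ℤ) → ℝ} (hg : PerZ q g) (u : Fin d → ℤ) (h : ∀ t, g t ≤ 1) : mean d q (sh u g) ≤ 1 := by
  rw [mean_sh hq hg]
  exact (meanZ_mono h).trans (le_of_eq (meanZ_const hq 1))

lemma avg4 (d r : ℕ) (hr : 1 ≤ r) : ∃ C : ℝ, 0 ≤ C ∧ ∀ g : ℕ → (Fin d → ℤ) → ℝ, (∀ k, PerZ (PI (Ico k (k + r))) (g k)) →
    (∀ k t, 0 ≤ g k t ∧ g k t ≤ 1) → ∀ (K : ℕ) (σ : ℝ) (N : Fin d → ℕ) (u : Fin d → ℤ), 1 ≤ K → 1 ≤ σ → (K : ℝ) ≤ σ ^ 2 →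
    (∀ i, (K : ℝ) ^ (2 * 2) * (pr (K + r) : ℝ) ^ (2 * 2 * r) * σ ≤ N i) →
    ∑ n ∈ par N, (tot g K (fun i => u i + n i) - mu g r K) ^ 4 ≤ (C * (mu g r K ^ 2 + mu g r K) + 2 ^ d / σ) * ∏ i, (N i : ℝ) := by
  obtain ⟨C, hC, hf⟩ := fourth (Ω := Fin d → ℕ) r
  refine ⟨4 * C, by positivity, fun g hg h01 K σ N u hK hσ hKσ hN => ?_⟩
  have hm0 : ∀ k, 0 ≤ mean d (PI (Ico k (k + r))) (sh u (g k)) := fun k => mean_sh_nonneg (PI_pos _) (hg k) u fun t => (h01 k t).1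
  have hm1 : ∀ k, mean d (PI (Ico k (k + r))) (sh u (g k)) ≤ 1 := fun k => mean_sh_le (PI_pos _) (hg k) u fun t => (h01 k t).2
  have hs0 : ∀ k n, 0 ≤ sh u (g k) n := fun k n => (h01 k _).1
  have hs1 : ∀ k n, sh u (g k) n ≤ 1 := fun k n => (h01 k _).2
  have hb : ∀ k n, |cen 1 g u r k n| ≤ 1 := by
    intro k n
    unfold cen
    rw [div_one, abs_le]
    have := hm0 k
    have := hm1 k
    have := hs0 k n
    have := hs1 k n
    constructor <;> linarith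
  have hwt : ∀ k, k < K → (sys d (K + r)).E (fun n => |cen 1 g u r k n|) ≤ 2 * mean d (PI (Ico k (k + r))) (sh u (g k)) := by
    intro k hk
    have h1 : (sys d (K + r)).E (fun n => |cen 1 g u r k n|) ≤
        (sys d (K + r)).E (fun n => sh u (g k) n + mean d (PI (Ico k (k + r))) (sh u (g k))) := by
      apply (sys d (K + r)).mono
      intro n
      unfold cen
      rw [div_one, abs_le]
      have := hm0 k
      have := hs0 k n
      constructor <;> linarith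
    rw [(sys d (K + r)).add, (sys d (K + r)).const] at h1
    have h2 : (sys d (K + r)).E (fun n => sh u (g k) n) = mean d (PI (Ico k (k + r))) (sh u (g k)) := by
      show mean d (PI (range (K + r))) (sh u (g k)) = _
      rw [mean_eq (I := Ico k (k + r)) _ _ (per_sh (hg k) u)]
      intro x hx
      rw [mem_Ico] at hx
      rw [mem_range]
      omega
    rw [h2] at h1
    linarith
  have hw : ∑ k ∈ range K, (sys d (K + r)).E (fun n => |cen 1 g u r k n|) ≤ σ ^ 2 := by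
    have h1 : ∀ k ∈ range K, (sys d (K + r)).E (fun n => |cen 1 g u r k n|) ≤ 1 := by
      intro k _
      have := (sys d (K + r)).mono (fun n => |cen 1 g u r k n|) (fun _ => 1) (hb k)
      rwa [(sys d (K + r)).one] at this
    refine (sum_le_sum h1).trans ?_
    rw [sum_const, card_range, nsmul_eq_mul, mul_one]
    exact hKσ
  have hyp := hyp_cen hr 1 σ hg u hb hσ hw
  have h4 := hf (sys d (K + r)) (cen 1 g u r) K σ hyp
  obtain ⟨Λ, hΛ⟩ : ∃ Λ, Λ = ∑ k ∈ range K, (sys d (K + r)).wt (cen 1 g u r) k := ⟨_, rfl⟩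
  rw [← hΛ] at h4
  have hmu0 : 0 ≤ mu g r K := by
    rw [← mean_cen hg u]
    exact sum_nonneg fun k _ => hm0 k
  have hΛ0 : 0 ≤ Λ := by rw [hΛ]; exact sum_nonneg fun k _ => hyp.wt_nonneg k
  have hΛ1 : Λ ≤ 2 * mu g r K := by
    rw [hΛ, ← mean_cen hg u, mul_sum]
    refine sum_le_sum fun k hk => ?_
    exact hwt k (mem_range.1 hk)
  have hE : (sys d (K + r)).E (fun n => Sys.S (cen 1 g u r) K n ^ 4) ≤ 4 * C * (mu g r K ^ 2 + mu g r K) := by
    refine h4.trans ?_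
    have h5 : Λ ^ 2 + Λ ≤ 4 * (mu g r K ^ 2 + mu g r K) := by nlinarith
    calc C * (Λ ^ 2 + Λ) ≤ C * (4 * (mu g r K ^ 2 + mu g r K)) := mul_le_mul_of_nonneg_left h5 hC
      _ = _ := by ring
  have h6 := avg_pow r (cen 1 g u r) K σ hyp hK 2 4 (by norm_num) N hN
  have h7 := (_root_.abs_le.1 h6).2
  have hPN : 0 ≤ ∏ i, (N i : ℝ) := prod_nonneg fun _ _ => Nat.cast_nonneg _
  have e : ∑ n ∈ par N, (tot g K (fun i => u i + n i) - mu g r K) ^ 4 = ∑ n ∈ par N, Sys.S (cen 1 g u r) K n ^ 4 := by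
    refine sum_congr rfl fun n _ => ?_
    rw [S_cen 1 hg u n, div_one]
  rw [e, add_mul]
  have h8 := mul_le_mul_of_nonneg_left hE hPN
  linarith

end Pool.Agent.K4H4.SB
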