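import Pool.Agent.K4H4.SB.Orth
import Pool.Agent.K4H4.CL.Prod

set_option autoImplicit false

/-! All boxes, and all lengths. -/

namespace Pool.Agent.K4H4.SB
open Finset
open Pool.Agent.K4H4.CL
open Pool.Agent.TH894.NE (box mem_box card_box Per mean two_mod mean_mono mean_const mean_add mean_mul)

variable {d : ℕ}

lemma mean_prod (s : ℕ) (k L : ℕ) (hk : k + s ≤ L) (G : Fin s → (Fin d → ℤ) → ℝ) (hG : ∀ i : Fin s, PerZ (pr (k + i)) (G i)) :
    meanZ (PI (range L)) (fun t => ∏ i, G i t) = ∏ i : Fin s, meanZ (pr (k + i)) (G i) := by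
  induction s with
  | zero =>
    simp only [univ_eq_empty, prod_empty]
    exact meanZ_const (PI_pos _) 1
  | succ s ih =>
    have h1 := ih (by omega) (fun i => G i.castSucc) (fun i => hG i.castSucc)
    have e : (fun t => ∏ i, G i t) = fun t => (∏ i : Fin s, G i.castSucc t) * G (Fin.last s) t := by
      funext t
      rw [Fin.prod_univ_castSucc]
    rw [e, Fin.prod_univ_castSucc]
    have hP : PerZ (PI (Ico k (k + s))) (fun t => ∏ i : Fin s, G i.castSucc t) := by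
      apply perZ_prod
      intro i _
      exact (hG i.castSucc).of_dvd (pr_dvd_PI (by rw [mem_Ico]; show k ≤ k + (i : ℕ) ∧ k + (i : ℕ) < k + s; omega))
    have hl : PerZ (PI (Ico (k + s) (k + s + 1))) (G (Fin.last s)) := (hG (Fin.last s)).of_dvd (pr_dvd_PI (by
      rw [mem_Ico]
      show k + s ≤ k + s ∧ k + s < k + s + 1
      omega))
    have hind := (sys d L).ind (a := k) (b := k + s) (c := k + s + 1) (f := sh 0 (fun t => ∏ i : Fin s, G i.castSucc t)) (g := sh 0 (G (Fin.last s)))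
      (by omega) (by omega) hk (per_sh hP 0) (per_sh hl 0)
    have hd1 : PI (Ico k (k + s)) ∣ PI (range L) := PI_dvd (by
      intro x hx
      rw [mem_Ico] at hx
      rw [mem_range]
      omega)
    have hd2 : PI (Ico (k + s) (k + s + 1)) ∣ PI (range L) := PI_dvd (by
      intro x hx
      rw [mem_Ico] at hx
      rw [mem_range]
      omega)
    have hP' := hP.of_dvd hd1
    have hl' := hl.of_dvd hd2
    have hPl : PerZ (PI (range L)) (fun t => (∏ i : Fin s, G i.castSucc t) * G (Fin.last s) t) := by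
      intro t t' ht
      show (∏ i : Fin s, G i.castSucc t) * G (Fin.last s) t = (∏ i : Fin s, G i.castSucc t') * G (Fin.last s) t'
      have a1 : (∏ i : Fin s, G i.castSucc t) = ∏ i : Fin s, G i.castSucc t' := hP' t t' ht
      rw [a1, hl' t t' ht]
    rw [meanZ_eq (PI_pos _) hPl]
    have e2 : meanZ (pr (k + (Fin.last s : Fin (s + 1)))) (G (Fin.last s)) = mean d (PI (range L)) (sh 0 (G (Fin.last s))) := by
      rw [← meanZ_eq (PI_pos _) hl']
      exact (meanZ_pr (by show k + s < L; omega) (hG (Fin.last s))).symm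
    have e3 : ∏ i : Fin s, meanZ (pr (k + (i.castSucc : Fin (s + 1)))) (G i.castSucc) = mean d (PI (range L)) (sh 0 (fun t => ∏ i : Fin s, G i.castSucc t)) := by
      rw [← meanZ_eq (PI_pos _) hP']
      exact h1.symm
    rw [e2, e3]
    exact hind

/-- on a finite set every interval is half-open -/
lemma ivl (W : Finset ℝ) (J : Set ℝ) (hJ : J.OrdConnected) : ∃ a b : ℝ, a ≤ b ∧ ∀ x ∈ W, (x ∈ J ↔ a ≤ x ∧ x < b) := by
  classical
  by_cases h : (W.filter (fun x => x ∈ J)).Nonempty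
  · obtain ⟨a, ha, hmin⟩ := exists_min_image _ id h
    obtain ⟨m, hm, hmax⟩ := exists_max_image _ id h
    simp only [id] at hmin hmax
    rw [mem_filter] at ha hm
    have hb : ∃ b, m < b ∧ ∀ x ∈ W, x < b → x ≤ m := by
      by_cases h2 : (W.filter (fun x => m < x)).Nonempty
      · obtain ⟨b, hb, hbmin⟩ := exists_min_image _ id h2
        simp only [id] at hbmin
        rw [mem_filter] at hb
        refine ⟨b, hb.2, fun x hx hxb => ?_⟩
        by_contra h3
        have := hbmin x (mem_filter.2 ⟨hx, not_le.1 h3⟩)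
        linarith
      · refine ⟨m + 1, by linarith, fun x hx _ => ?_⟩
        by_contra h3
        exact h2 ⟨x, mem_filter.2 ⟨hx, not_le.1 h3⟩⟩
    obtain ⟨b, hmb, hb⟩ := hb
    refine ⟨a, b, ?_, fun x hx => ⟨fun hxJ => ?_, fun hxab => ?_⟩⟩
    · have := hmin m (mem_filter.2 hm)
      linarith
    · have h1 := hmin x (mem_filter.2 ⟨hx, hxJ⟩)
      have h2 := hmax x (mem_filter.2 ⟨hx, hxJ⟩)
      exact ⟨h1, by linarith⟩
    · exact hJ.out ha.2 hm.2 ⟨hxab.1, hb x hx hxab.2⟩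
  · refine ⟨0, 0, le_rfl, fun x hx => ⟨fun hxJ => ?_, fun hxab => ?_⟩⟩
    · exact absurd ⟨x, mem_filter.2 ⟨hx, hxJ⟩⟩ h
    · exact absurd (lt_of_le_of_lt hxab.1 hxab.2) (lt_irrefl _)

/-- the number of the windows in a box -/
noncomputable def cnt (θ : ℕ → (Fin d → ℤ) → ℝ) (s K : ℕ) (J : Fin s → Set ℝ) (t : Fin d → ℤ) : ℝ :=
  ∑ k ∈ range K, ∏ i : Fin s, ival θ (fun x => x ∈ J i) (k + i) t

/-- the expected number -/
noncomputable def ex (θ : ℕ → (Fin d → ℤ) → ℝ) (s K : ℕ) (J : Fin s → Set ℝ) : ℝ :=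
  ∑ k ∈ range K, ∏ i : Fin s, prop θ (fun x => x ∈ J i) (k + i)

/-- the indicator function of a box, up to a time -/
noncomputable def bx (θ : ℕ → (Fin d → ℤ) → ℝ) (s K' : ℕ) (J : Fin s → Set ℝ) (k : ℕ) (t : Fin d → ℤ) : ℝ :=
  (if k < K' then (1 : ℝ) else 0) * ∏ i : Fin s, ival θ (fun x => x ∈ J i) (k + i) t

lemma sum_ite_range (K K' : ℕ) (h : K' ≤ K) (f : ℕ → ℝ) : ∑ k ∈ range K, (if k < K' then (1 : ℝ) else 0) * f k = ∑ k ∈ range K', f k := by
  have h1 : ∀ k, (if k < K' then (1 : ℝ) else 0) * f k = if k < K' then f k else 0 := by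
    intro k
    split_ifs <;> simp
  rw [sum_congr rfl fun k _ => h1 k, ← sum_filter]
  apply sum_congr _ fun _ _ => rfl
  ext k
  rw [mem_filter, mem_range, mem_range]
  omega

lemma dev_bx {θ : ℕ → (Fin d → ℤ) → ℝ} (hθ : PerV θ) (s K K' : ℕ) (h : K' ≤ K) (J : Fin s → Set ℝ) (t : Fin d → ℤ) :
    dev (bx θ s K' J) s K t = cnt θ s K' J t - ex θ s K' J := by
  unfold dev
  congr 1
  · exact sum_ite_range K K' h (fun k => ∏ i : Fin s, ival θ (fun x => x ∈ J i) (k + i) t)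
  · rw [mu_eq]
    have h1 : ∀ k ∈ range K, meanZ (PI (range (K + s))) (bx θ s K' J k) =
        (if k < K' then (1 : ℝ) else 0) * ∏ i : Fin s, prop θ (fun x => x ∈ J i) (k + i) := by
      intro k hk
      rw [mem_range] at hk
      have e : bx θ s K' J k = fun t => (if k < K' then (1 : ℝ) else 0) * ∏ i : Fin s, ival θ (fun x => x ∈ J i) (k + i) t := rfl
      rw [e, meanZ_mul]
      congr 1
      exact mean_prod s k (K + s) (by omega) (fun i => ival θ (fun x => x ∈ J i) (k + i)) (fun i => perZ_ival hθ _ _)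
    rw [sum_congr rfl h1]
    exact sum_ite_range K K' h (fun k => ∏ i : Fin s, prop θ (fun x => x ∈ J i) (k + i))

lemma ival_diff {θ : ℕ → (Fin d → ℤ) → ℝ} (W : Finset ℝ) (J : Set ℝ) (a b : ℝ) (hab : a ≤ b) (h : ∀ x ∈ W, (x ∈ J ↔ a ≤ x ∧ x < b))
    (l : ℕ) (t : Fin d → ℤ) (hW : θ l t ∈ W) :
    ival θ (fun x => x ∈ J) l t = ∑ e : Bool, (if e then (1 : ℝ) else -1) * ival θ (fun x => x < (if e then b else a)) l t := by
  rw [Fintype.sum_bool]
  have h1 := h _ hW
  unfold ival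
  by_cases h2 : θ l t < a
  · have h3 : θ l t < b := lt_of_lt_of_le h2 hab
    have h4 : ¬ θ l t ∈ J := fun h5 => by linarith [(h1.1 h5).1]
    simp [h2, h3, h4]
  · by_cases h3 : θ l t < b
    · have h4 : θ l t ∈ J := h1.2 ⟨not_lt.1 h2, h3⟩
      simp [h2, h3, h4]
    · have h4 : ¬ θ l t ∈ J := fun h5 => h3 (h1.1 h5).2
      simp [h2, h3, h4]

lemma box_le {θ : ℕ → (Fin d → ℤ) → ℝ} (hθ : PerV θ) (s K K' : ℕ) (h : K' ≤ K) (J : Fin s → Set ℝ) (hJ : ∀ i, (J i).OrdConnected)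
    (t : Fin d → ℤ) (B : ℝ) (hB : ∀ v, |dev (orth θ s K' v) s K t| ≤ B) : |cnt θ s K' J t - ex θ s K' J| ≤ 2 ^ s * B := by
  choose a b hab hJ2 using fun i => ivl (vals θ (K + s)) (J i) (hJ i)
  rw [← dev_bx hθ s K K' h J t]
  have h1 := dev_sum (Fintype.piFinset (fun _ : Fin s => (univ : Finset Bool))) (fun p => ∏ i, (if p i then (1 : ℝ) else -1))
    (fun p => orth θ s K' (fun i => if p i then b i else a i)) (bx θ s K' J) s K (by
      intro k hk t
      unfold bx orth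
      have e : ∏ i : Fin s, ival θ (fun x => x ∈ J i) (k + i) t =
          ∏ i : Fin s, ∑ e : Bool, (if e then (1 : ℝ) else -1) * ival θ (fun x => x < (if e then b i else a i)) (k + i) t :=
        prod_congr rfl fun i _ => ival_diff (vals θ (K + s)) (J i) (a i) (b i) (hab i) (hJ2 i) (k + i) t (mem_vals hθ (by omega) t)
      rw [e, Finset.prod_univ_sum, mul_sum]
      refine sum_congr rfl fun p _ => ?_
      rw [prod_mul_distrib]
      ring) t
  rw [h1]
  refine (abs_sum_le_sum_abs _ _).trans ?_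
  have h2 : ∀ p ∈ Fintype.piFinset (fun _ : Fin s => (univ : Finset Bool)),
      |(∏ i, (if p i then (1 : ℝ) else -1)) * dev (orth θ s K' (fun i => if p i then b i else a i)) s K t| ≤ B := by
    intro p _
    rw [abs_mul, abs_prod]
    have h3 : ∏ i, |(if p i then (1 : ℝ) else -1)| = 1 := prod_eq_one fun i _ => by
      split_ifs <;> simp
    rw [h3, one_mul]
    exact hB _
  refine (sum_le_sum h2).trans ?_
  rw [sum_const, nsmul_eq_mul, Fintype.card_piFinset_const]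
  simp

lemma cnt_ex_trivial (θ : ℕ → (Fin d → ℤ) → ℝ) (s K : ℕ) (J : Fin s → Set ℝ) (t : Fin d → ℤ) : |cnt θ s K J t - ex θ s K J| ≤ K := by
  have h01 : ∀ p l t, ival (d := d) θ p l t ≤ 1 := by
    intro p l t
    unfold ival
    split_ifs <;> norm_num
  have h1 : 0 ≤ cnt θ s K J t := sum_nonneg fun k _ => prod_nonneg fun i _ => ival_nonneg θ _ _ t
  have h2 : 0 ≤ ex θ s K J := sum_nonneg fun k _ => prod_nonneg fun i _ => prop_nonneg θ _ _
  have h3 : cnt θ s K J t ≤ K := by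
    unfold cnt
    refine (sum_le_sum fun k _ => prod_le_one (fun i _ => ival_nonneg θ _ _ t) fun i _ => h01 _ _ t).trans ?_
    rw [sum_const, card_range, nsmul_eq_mul, mul_one]
  have h4 : ex θ s K J ≤ K := by
    unfold ex
    refine (sum_le_sum fun k _ => prod_le_one (fun i _ => prop_nonneg θ _ _) fun i _ => prop_le_one θ _ _).trans ?_
    rw [sum_const, card_range, nsmul_eq_mul, mul_one]
  rw [abs_le]
  constructor <;> linarith

lemma sum_inv_sq (n : ℕ) : ∑ j ∈ range n, (1 : ℝ) / ((j : ℝ) + 1) ^ 2 ≤ 2 := by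
  have h : ∀ n : ℕ, ∑ j ∈ range n, (1 : ℝ) / ((j : ℝ) + 1) ^ 2 ≤ 2 - 2 / ((n : ℝ) + 1) := by
    intro n
    induction n with
    | zero => simp
    | succ n ih =>
      rw [sum_range_succ]
      have h1 : (1 : ℝ) / ((n : ℝ) + 1) ^ 2 ≤ 2 / ((n : ℝ) + 1) - 2 / (((n + 1 : ℕ) : ℝ) + 1) := by
        have hn : (0 : ℝ) ≤ n := Nat.cast_nonneg n
        push_cast
        have e : 2 / ((n : ℝ) + 1) - 2 / ((n : ℝ) + 1 + 1) = 2 / (((n : ℝ) + 1) * ((n : ℝ) + 1 + 1)) := by
          field_simp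
          ring
        rw [e, div_le_div_iff₀ (by positivity) (by positivity)]
        nlinarith
      linarith
  have h1 := h n
  have h2 : (0 : ℝ) ≤ 2 / ((n : ℝ) + 1) := by positivity
  linarith

open Classical in
theorem unif (d s : ℕ) (hs : 1 ≤ s) (ε : ℝ) (hε : 0 < ε) : ∃ (C : ℕ) (A : ℝ), 0 ≤ A ∧ ∀ θ : ℕ → (Fin d → ℤ) → ℝ, PerV θ →
    ∀ (K : ℕ) (N : Fin d → ℕ) (u : Fin d → ℤ), C ≤ K → (∀ i, K ^ C ≤ N i) → ∃ B : Finset (Fin d → ℕ),
      (B.card : ℝ) ≤ ε * ∏ i, (N i : ℝ) ∧ ∀ n ∈ par N, n ∉ B → ∀ K', 1 ≤ K' → K' ≤ K → ∀ J : Fin s → Set ℝ, (∀ i, (J i).OrdConnected) →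
        |cnt θ s K' J (fun i => u i + n i) - ex θ s K' J| ≤ A * Real.sqrt K' * (1 + Real.log K') ^ 2 := by
  obtain ⟨C₀, A₀, hA₀, horth⟩ := orthants d s hs
  obtain ⟨lam, hlam⟩ : ∃ lam : ℝ, lam = 2 * (A₀ + 1) / ε := ⟨_, rfl⟩
  have hlam0 : 0 < lam := by rw [hlam]; positivity
  refine ⟨2 * C₀ + 2, 2 ^ C₀ + 2 ^ s * (8 * lam), by positivity, fun θ hθ K N u hK hN => ?_⟩
  have hK2 : 2 ≤ K := by omega
  obtain ⟨J₁, hJ₁⟩ : ∃ J₁, J₁ = Nat.log 2 K + 1 := ⟨_, rfl⟩
  have hJK : 2 ^ J₁ ≤ K * K := by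
    rw [hJ₁, pow_succ]
    exact Nat.mul_le_mul (Nat.pow_log_le_self 2 (by omega)) hK2
  have hKJ : K < 2 ^ J₁ := by rw [hJ₁]; exact Nat.lt_pow_succ_log_self (by norm_num) K
  obtain ⟨P, hP⟩ : ∃ P : ℝ, P = ∏ i, (N i : ℝ) := ⟨_, rfl⟩
  have hP0 : 0 ≤ P := by rw [hP]; positivity
  have hex : ∀ j, ∃ Zt : (Fin d → ℤ) → ℝ, (∀ t, 0 ≤ Zt t) ∧ (C₀ ≤ j → j ≤ J₁ →
      (∀ t K' v, K' ≤ 2 ^ j → |dev (orth θ s K' v) s (2 ^ j) t| ≤ Zt t) ∧
      ∑ n ∈ par N, Zt (fun i => u i + n i) ≤ A₀ * Real.sqrt (2 ^ j) * P) := by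
    intro j
    by_cases hj : C₀ ≤ j ∧ j ≤ J₁
    · obtain ⟨Zt, h0, h1, h2⟩ := horth θ hθ (2 ^ j) N u (hj.1.trans Nat.lt_two_pow_self.le) (by
        intro i
        refine le_trans ?_ (hN i)
        calc (2 ^ j) ^ C₀ ≤ (2 ^ J₁) ^ C₀ := Nat.pow_le_pow_left (Nat.pow_le_pow_right (by norm_num) hj.2) _
          _ ≤ (K * K) ^ C₀ := Nat.pow_le_pow_left hJK _
          _ = K ^ (2 * C₀) := by rw [← sq, ← pow_mul]
          _ ≤ K ^ (2 * C₀ + 2) := Nat.pow_le_pow_right (by omega) (by omega))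
      refine ⟨Zt, h0, fun _ _ => ⟨h1, ?_⟩⟩
      rw [hP]
      push_cast at h2
      exact h2
    · exact ⟨fun _ => 0, fun _ => le_rfl, fun h1 h2 => absurd ⟨h1, h2⟩ hj⟩
  choose Zt hZ0 hZ using hex
  refine ⟨(Icc C₀ J₁).biUnion (fun j => (par N).filter (fun n => lam * ((j : ℝ) + 1) ^ 2 * Real.sqrt (2 ^ j) < Zt j (fun i => u i + n i))), ?_, ?_⟩
  · rw [← hP]
    have h1 : ∀ j ∈ Icc C₀ J₁, ((((par N).filter (fun n => lam * ((j : ℝ) + 1) ^ 2 * Real.sqrt (2 ^ j) < Zt j (fun i => u i + n i))).card : ℕ) : ℝ) ≤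
        A₀ / lam * P * (1 / ((j : ℝ) + 1) ^ 2) := by
      intro j hj
      rw [mem_Icc] at hj
      have h2 := (hZ j hj.1 hj.2).2
      obtain ⟨F, hF⟩ : ∃ F, F = (par N).filter (fun n => lam * ((j : ℝ) + 1) ^ 2 * Real.sqrt (2 ^ j) < Zt j (fun i => u i + n i)) := ⟨_, rfl⟩
      rw [← hF]
      have hq : 0 < Real.sqrt (2 ^ j) := Real.sqrt_pos.2 (by positivity)
      have h3 : (F.card : ℝ) * (lam * ((j : ℝ) + 1) ^ 2 * Real.sqrt (2 ^ j)) ≤ A₀ * Real.sqrt (2 ^ j) * P := by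
        refine le_trans ?_ h2
        calc (F.card : ℝ) * (lam * ((j : ℝ) + 1) ^ 2 * Real.sqrt (2 ^ j)) = ∑ n ∈ F, lam * ((j : ℝ) + 1) ^ 2 * Real.sqrt (2 ^ j) := by
              rw [sum_const, nsmul_eq_mul]
          _ ≤ ∑ n ∈ F, Zt j (fun i => u i + n i) := by
              apply sum_le_sum
              intro n hn
              rw [hF, mem_filter] at hn
              exact hn.2.le
          _ ≤ _ := by
              apply sum_le_sum_of_subset_of_nonneg
              · rw [hF]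
                exact filter_subset _ _
              · intro n _ _
                exact hZ0 j _
      have hj1 : (0 : ℝ) < ((j : ℝ) + 1) ^ 2 := by positivity
      rw [mul_one_div, le_div_iff₀ hj1, div_mul_eq_mul_div, le_div_iff₀ hlam0]
      have h4 : (F.card : ℝ) * ((j : ℝ) + 1) ^ 2 * lam * Real.sqrt (2 ^ j) ≤ A₀ * P * Real.sqrt (2 ^ j) := by linarith
      exact le_of_mul_le_mul_right h4 hq
    have h2 : ((((Icc C₀ J₁).biUnion (fun j => (par N).filter (fun n => lam * ((j : ℝ) + 1) ^ 2 * Real.sqrt (2 ^ j) < Zt j (fun i => u i + n i)))).card : ℕ) : ℝ) ≤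
        ∑ j ∈ Icc C₀ J₁, ((((par N).filter (fun n => lam * ((j : ℝ) + 1) ^ 2 * Real.sqrt (2 ^ j) < Zt j (fun i => u i + n i))).card : ℕ) : ℝ) := by
      exact_mod_cast card_biUnion_le
    refine (h2.trans (sum_le_sum h1)).trans ?_
    rw [← mul_sum]
    have h3 : ∑ j ∈ Icc C₀ J₁, 1 / ((j : ℝ) + 1) ^ 2 ≤ 2 := by
      refine le_trans ?_ (sum_inv_sq (J₁ + 1))
      apply sum_le_sum_of_subset_of_nonneg
      · intro j hj
        rw [mem_Icc] at hj
        rw [mem_range]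
        omega
      · intro j _ _
        positivity
    calc A₀ / lam * P * ∑ j ∈ Icc C₀ J₁, 1 / ((j : ℝ) + 1) ^ 2 ≤ A₀ / lam * P * 2 := mul_le_mul_of_nonneg_left h3 (by positivity)
      _ = (A₀ / (A₀ + 1)) * (ε * P) := by
          rw [hlam]
          field_simp
      _ ≤ 1 * (ε * P) := by
          apply mul_le_mul_of_nonneg_right _ (by positivity)
          rw [div_le_one (by linarith)]
          linarith
      _ = _ := one_mul _
  · intro n hn hnB K' hK'1 hK' J hJ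
    have hK'r : (1 : ℝ) ≤ K' := by exact_mod_cast hK'1
    have hlog : 0 ≤ Real.log K' := Real.log_nonneg hK'r
    have hsq : 1 ≤ Real.sqrt K' := Real.one_le_sqrt.2 hK'r
    have hsqm : Real.sqrt K' * Real.sqrt K' = K' := Real.mul_self_sqrt (by linarith)
    have hl1 : (1 : ℝ) ≤ (1 + Real.log K') ^ 2 := one_le_pow₀ (by linarith)
    by_cases hc : K' ≤ 2 ^ C₀
    · refine (cnt_ex_trivial θ s K' J _).trans ?_
      have h1 : (K' : ℝ) ≤ 2 ^ C₀ * Real.sqrt K' := by
        have h2 : Real.sqrt K' ≤ 2 ^ C₀ := by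
          have h3 : (K' : ℝ) ≤ 2 ^ C₀ := by exact_mod_cast hc
          have h4 : Real.sqrt K' ≤ K' := by nlinarith
          linarith
        calc (K' : ℝ) = Real.sqrt K' * Real.sqrt K' := hsqm.symm
          _ ≤ _ := mul_le_mul_of_nonneg_right h2 (by positivity)
      have h5 : 2 ^ C₀ * Real.sqrt K' ≤ (2 ^ C₀ + 2 ^ s * (8 * lam)) * Real.sqrt K' :=
        mul_le_mul_of_nonneg_right (by have : 0 ≤ 2 ^ s * (8 * lam) := by positivity
                                       linarith) (by positivity)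
      have h6 : 0 ≤ (2 ^ C₀ + 2 ^ s * (8 * lam)) * Real.sqrt K' := by positivity
      calc (K' : ℝ) ≤ (2 ^ C₀ + 2 ^ s * (8 * lam)) * Real.sqrt K' := h1.trans h5
        _ = (2 ^ C₀ + 2 ^ s * (8 * lam)) * Real.sqrt K' * 1 := by ring
        _ ≤ _ := mul_le_mul_of_nonneg_left hl1 h6
    · push Not at hc
      obtain ⟨j, hj⟩ : ∃ j, j = Nat.clog 2 K' := ⟨_, rfl⟩
      have hj1 : K' ≤ 2 ^ j := by rw [hj]; exact Nat.le_pow_clog (by norm_num) _
      have hjC : C₀ ≤ j := by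
        by_contra h1
        have h2 : 2 ^ j ≤ 2 ^ C₀ := Nat.pow_le_pow_right (by norm_num) (by omega)
        omega
      have hK'2 : 1 < K' := lt_of_le_of_lt (Nat.one_le_two_pow) hc
      have hj2 : 2 ^ (j - 1) < K' := by
        rw [hj]
        exact Nat.pow_pred_clog_lt_self (by norm_num) hK'2
      have hjpos : 1 ≤ j := by
        by_contra h1
        have h2 : j = 0 := by omega
        rw [h2] at hj1
        simp at hj1
        omega
      have hjJ : j ≤ J₁ := by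
        by_contra h1
        have h2 : 2 ^ J₁ ≤ 2 ^ (j - 1) := Nat.pow_le_pow_right (by norm_num) (by omega)
        omega
      have hnot : ¬ lam * ((j : ℝ) + 1) ^ 2 * Real.sqrt (2 ^ j) < Zt j (fun i => u i + n i) := by
        intro h1
        apply hnB
        rw [mem_biUnion]
        exact ⟨j, mem_Icc.2 ⟨hjC, hjJ⟩, mem_filter.2 ⟨hn, h1⟩⟩
      have hZj := (hZ j hjC hjJ).1
      have h1 := box_le hθ s (2 ^ j) K' hj1 J hJ (fun i => u i + n i) _ (fun v => hZj _ K' v hj1)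
      refine h1.trans ?_
      have hjr : (2 : ℝ) ^ (j - 1) ≤ K' := by exact_mod_cast hj2.le
      have h2j : (2 : ℝ) ^ j ≤ 2 * K' := by
        have e : (2 : ℝ) ^ j = 2 ^ (j - 1) * 2 := by rw [← pow_succ]; congr 1; omega
        rw [e]
        linarith
      have hs2 : Real.sqrt (2 ^ j) ≤ 2 * Real.sqrt K' := by
        rw [Real.sqrt_le_left (by positivity), mul_pow, Real.sq_sqrt (by linarith)]
        linarith
      have hjl : (j : ℝ) + 1 ≤ 2 * (1 + Real.log K') := by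
        have h3 := Real.log_le_log (by positivity) hjr
        rw [Real.log_pow] at h3
        have h4 : ((j - 1 : ℕ) : ℝ) = j - 1 := by
          rw [Nat.cast_sub hjpos]
          simp
        rw [h4] at h3
        have h5 : (1 / 2 : ℝ) < Real.log 2 := by have := Real.log_two_gt_d9; linarith
        have h6 : (1 : ℝ) ≤ j := by exact_mod_cast hjpos
        nlinarith
      have hjl2 : ((j : ℝ) + 1) ^ 2 ≤ 4 * (1 + Real.log K') ^ 2 := by
        have h3 := pow_le_pow_left₀ (by positivity) hjl 2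
        linarith
      calc 2 ^ s * Zt j (fun i => u i + n i) ≤ 2 ^ s * (lam * ((j : ℝ) + 1) ^ 2 * Real.sqrt (2 ^ j)) :=
            mul_le_mul_of_nonneg_left (not_lt.1 hnot) (by positivity)
        _ ≤ 2 ^ s * (lam * (4 * (1 + Real.log K') ^ 2) * (2 * Real.sqrt K')) := by
            apply mul_le_mul_of_nonneg_left _ (by positivity)
            apply mul_le_mul _ hs2 (by positivity) (by positivity)
            exact mul_le_mul_of_nonneg_left hjl2 hlam0.le
        _ = (2 ^ s * (8 * lam)) * Real.sqrt K' * (1 + Real.log K') ^ 2 := by ring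
        _ ≤ _ := by
            apply mul_le_mul_of_nonneg_right _ (by positivity)
            apply mul_le_mul_of_nonneg_right _ (by positivity)
            have : (0 : ℝ) < 2 ^ C₀ := by positivity
            linarith

end Pool.Agent.K4H4.SB
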