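import Pool.Agent.K4H4.SB.Avg

set_option autoImplicit false

/-! The supremum over all orthants, by dyadic decomposition of all coordinates. -/

namespace Pool.Agent.K4H4.SB
open Finset
open Pool.Agent.K4H4.CL
open Pool.Agent.TH894.NE (box mem_box card_box Per mean two_mod mean_mono mean_const mean_add mean_mul)

variable {d : ℕ}

/-- the deviation from the mean -/
noncomputable def dev (g : ℕ → (Fin d → ℤ) → ℝ) (r K : ℕ) (t : Fin d → ℤ) : ℝ := tot g K t - mu g r K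

lemma dev_sum {ι : Type} (J : Finset ι) (α : ι → ℝ) (G : ι → ℕ → (Fin d → ℤ) → ℝ) (g : ℕ → (Fin d → ℤ) → ℝ) (r K : ℕ)
    (h : ∀ k, k < K → ∀ t, g k t = ∑ j ∈ J, α j * G j k t) (t : Fin d → ℤ) : dev g r K t = ∑ j ∈ J, α j * dev (G j) r K t := by
  have h1 : ∀ t, tot g K t = ∑ j ∈ J, α j * tot (G j) K t := by
    intro t
    unfold tot
    rw [sum_congr rfl fun k hk => h k (mem_range.1 hk) t, sum_comm]
    exact sum_congr rfl fun j _ => (mul_sum _ _ _).symm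
  unfold dev mu
  rw [h1 t]
  have h2 : meanZ (PI (range (K + r))) (tot g K) = ∑ j ∈ J, α j * meanZ (PI (range (K + r))) (tot (G j) K) := by
    have e : tot g K = fun t => ∑ j ∈ J, α j * tot (G j) K t := funext h1
    rw [e, meanZ_sum]
    exact sum_congr rfl fun j _ => meanZ_mul _ _
  rw [h2, ← sum_sub_distrib]
  exact sum_congr rfl fun j _ => by ring

/-- the indicator function of a lower orthant -/
def low {m : ℕ} (φ : Fin m → ℕ → (Fin d → ℤ) → ℕ) (T : Fin m → ℕ) (k : ℕ) (t : Fin d → ℤ) : ℝ :=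
  ∏ i, if φ i k t < T i then (1 : ℝ) else 0

/-- the indicator function of a cell -/
def cel {m : ℕ} (φ : Fin m → ℕ → (Fin d → ℤ) → ℕ) (j c : Fin m → ℕ) (k : ℕ) (t : Fin d → ℤ) : ℝ :=
  ∏ i, if φ i k t / 2 ^ (j i) = c i then (1 : ℝ) else 0

lemma cel_nonneg {m : ℕ} (φ : Fin m → ℕ → (Fin d → ℤ) → ℕ) (j c : Fin m → ℕ) (k : ℕ) (t : Fin d → ℤ) : 0 ≤ cel φ j c k t := by
  unfold cel
  refine prod_nonneg fun i _ => ?_
  split_ifs <;> norm_num

lemma cel_le {m : ℕ} (φ : Fin m → ℕ → (Fin d → ℤ) → ℕ) (j c : Fin m → ℕ) (k : ℕ) (t : Fin d → ℤ) : cel φ j c k t ≤ 1 := by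
  unfold cel
  refine prod_le_one (fun i _ => ?_) fun i _ => ?_
  · split_ifs <;> norm_num
  · split_ifs <;> norm_num

lemma cel_le_one {m : ℕ} (φ : Fin m → ℕ → (Fin d → ℤ) → ℕ) (j c : Fin m → ℕ) (k : ℕ) (t : Fin d → ℤ) (i : Fin m) :
    cel φ j c k t ≤ if φ i k t / 2 ^ (j i) = c i then (1 : ℝ) else 0 := by
  by_cases h : φ i k t / 2 ^ (j i) = c i
  · rw [if_pos h]
    exact cel_le φ j c k t
  · rw [if_neg h]
    unfold cel
    exact (prod_eq_zero (mem_univ i) (if_neg h)).le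

lemma low_eq {m : ℕ} (φ : Fin m → ℕ → (Fin d → ℤ) → ℕ) (L T : Fin m → ℕ) (k : ℕ) (t : Fin d → ℤ)
    (hφ : ∀ i, φ i k t < 2 ^ L i) (hT : ∀ i, T i < 2 ^ L i) : low φ T k t =
    ∑ j ∈ Fintype.piFinset (fun i => range (L i)), (if ∀ i, T i / 2 ^ (j i) % 2 = 1 then (1 : ℝ) else 0) *
      cel φ j (fun i => T i / 2 ^ (j i) - 1) k t := by
  unfold low
  rw [prod_congr rfl fun i _ => dyad (L i) (φ i k t) (T i) (hφ i) (hT i), Finset.prod_univ_sum]
  refine sum_congr rfl fun j _ => ?_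
  by_cases h : ∀ i, T i / 2 ^ (j i) % 2 = 1
  · rw [if_pos h, one_mul]
    unfold cel
    refine prod_congr rfl fun i _ => ?_
    have h1 := h i
    show (if T i / 2 ^ (j i) % 2 = 1 ∧ φ i k t / 2 ^ (j i) + 1 = T i / 2 ^ (j i) then (1 : ℝ) else 0) =
      if φ i k t / 2 ^ (j i) = T i / 2 ^ (j i) - 1 then (1 : ℝ) else 0
    generalize φ i k t / 2 ^ (j i) = x at *
    generalize T i / 2 ^ (j i) = y at *
    by_cases h2 : x = y - 1
    · rw [if_pos h2, if_pos ⟨h1, by omega⟩]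
    · rw [if_neg h2, if_neg (by omega)]
  · rw [if_neg h, zero_mul]
    push Not at h
    obtain ⟨i, hi⟩ := h
    exact prod_eq_zero (mem_univ i) (if_neg fun h2 => hi h2.1)

lemma s4 (x : ℝ) : Real.sqrt (Real.sqrt (x ^ 4)) = |x| := by
  have e : x ^ 4 = (x ^ 2) ^ 2 := by ring
  rw [e, Real.sqrt_sq (sq_nonneg x), Real.sqrt_sq_eq_abs]

lemma s4_add (x y : ℝ) (hx : 0 ≤ x) (hy : 0 ≤ y) : Real.sqrt (Real.sqrt (x + y)) ≤ Real.sqrt (Real.sqrt x) + Real.sqrt (Real.sqrt y) := by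
  have h : ∀ a b : ℝ, 0 ≤ a → 0 ≤ b → Real.sqrt (a + b) ≤ Real.sqrt a + Real.sqrt b := by
    intro a b ha hb
    apply Real.sqrt_le_iff.2
    refine ⟨by positivity, ?_⟩
    have := Real.sq_sqrt ha
    have := Real.sq_sqrt hb
    have : 0 ≤ Real.sqrt a * Real.sqrt b := by positivity
    nlinarith
  exact (Real.sqrt_le_sqrt (h x y hx hy)).trans (h _ _ (Real.sqrt_nonneg _) (Real.sqrt_nonneg _))

lemma sum_s {ι : Type} (I : Finset ι) (f : ι → ℝ) (B : ℝ) (hf : ∀ i ∈ I, 0 ≤ f i) (h : ∑ i ∈ I, f i ≤ B * I.card) :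
    ∑ i ∈ I, Real.sqrt (f i) ≤ Real.sqrt B * I.card := by
  by_cases hI : I = ∅
  · simp [hI]
  have hc : (0 : ℝ) < I.card := by exact_mod_cast card_pos.2 (nonempty_iff_ne_empty.2 hI)
  have hB : 0 ≤ B := by
    have h1 := (sum_nonneg hf).trans h
    by_contra h2
    have : B * I.card < 0 := mul_neg_of_neg_of_pos (not_le.1 h2) hc
    linarith
  have h1 := sq_sum_le_card_mul_sum_sq (s := I) (f := fun i => Real.sqrt (f i))
  have h2 : ∑ i ∈ I, Real.sqrt (f i) ^ 2 = ∑ i ∈ I, f i := sum_congr rfl fun i hi => Real.sq_sqrt (hf i hi)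
  rw [h2] at h1
  have h3 : (∑ i ∈ I, Real.sqrt (f i)) ^ 2 ≤ (Real.sqrt B * I.card) ^ 2 := by
    rw [mul_pow, Real.sq_sqrt hB]
    calc _ ≤ (I.card : ℝ) * ∑ i ∈ I, f i := h1
      _ ≤ (I.card : ℝ) * (B * I.card) := mul_le_mul_of_nonneg_left h hc.le
      _ = _ := by ring
  exact (abs_le_of_sq_le_sq' h3 (by positivity)).2

lemma sum_s4 {ι : Type} (I : Finset ι) (f : ι → ℝ) (B : ℝ) (hf : ∀ i ∈ I, 0 ≤ f i) (h : ∑ i ∈ I, f i ≤ B * I.card) :
    ∑ i ∈ I, Real.sqrt (Real.sqrt (f i)) ≤ Real.sqrt (Real.sqrt B) * I.card :=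
  sum_s I _ _ (fun _ _ => Real.sqrt_nonneg _) (sum_s I f B hf h)

lemma sum_cel {m : ℕ} (φ : Fin m → ℕ → (Fin d → ℤ) → ℕ) (L j : Fin m → ℕ) (k : ℕ) (t : Fin d → ℤ) :
    ∑ c ∈ Fintype.piFinset (fun i => range (2 ^ L i)), cel φ j c k t ≤ 1 := by
  have h1 := Finset.prod_univ_sum (fun i => range (2 ^ L i)) (fun i c => if φ i k t / 2 ^ (j i) = c then (1 : ℝ) else 0)
  have e : ∑ c ∈ Fintype.piFinset (fun i => range (2 ^ L i)), cel φ j c k t =
      ∏ i, ∑ c ∈ range (2 ^ L i), if φ i k t / 2 ^ (j i) = c then (1 : ℝ) else 0 := by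
    rw [h1]
    rfl
  rw [e]
  refine prod_le_one (fun i _ => sum_nonneg fun c _ => by split_ifs <;> norm_num) fun i _ => ?_
  rw [sum_ite_eq]
  split_ifs <;> norm_num

/-- the geometric mean of several bounds -/
lemma geo {m : ℕ} (hm : 1 ≤ m) (x a : ℝ) (b : Fin m → ℝ) (hx : 0 ≤ x) (ha : 0 ≤ a) (hb : ∀ i, 0 ≤ b i) (h : ∀ i, x ≤ a * b i ^ m) :
    x ≤ a * ∏ i, b i := by
  have h1 : x ^ m ≤ ∏ i, (a * b i ^ m) := by
    calc x ^ m = ∏ _i : Fin m, x := by rw [prod_const, card_univ, Fintype.card_fin]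
      _ ≤ _ := prod_le_prod (fun _ _ => hx) fun i _ => h i
  rw [prod_mul_distrib, prod_const, card_univ, Fintype.card_fin, prod_pow, ← mul_pow] at h1
  exact le_of_pow_le_pow_left₀ (by omega) (mul_nonneg ha (prod_nonneg fun i _ => hb i)) h1

lemma geo_sum (τ : ℝ) (h0 : 0 < τ) (h1 : τ < 1) (L : ℕ) : ∑ j ∈ range L, τ ^ (L - j) ≤ 1 / (1 - τ) := by
  have h2 : ∑ j ∈ range L, τ ^ (L - j) ≤ ∑ j ∈ range (L + 1), τ ^ j := by
    rw [← sum_range_reflect (fun j => τ ^ j) (L + 1), sum_range_succ]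
    have h3 : ∀ j ∈ range L, τ ^ (L - j) ≤ τ ^ (L + 1 - 1 - j) := fun j _ => by rw [Nat.add_sub_cancel]
    have h4 : 0 ≤ τ ^ (L + 1 - 1 - L) := by positivity
    linarith [sum_le_sum h3]
  refine h2.trans ?_
  have h5 : (∑ j ∈ range (L + 1), τ ^ j) * (1 - τ) = 1 - τ ^ (L + 1) := by
    have := geom_sum_mul_neg τ (L + 1)
    exact this
  rw [le_div_iff₀ (by linarith), h5]
  have : 0 < τ ^ (L + 1) := by positivity
  linarith

end Pool.Agent.K4H4.SB
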