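import Pool.Agent.K4H4.CL.Fam

set_option autoImplicit false

/-! The fourth moment in terms of the sum of the mean absolute values; dyadic decomposition. -/

namespace Pool.Agent.K4H4.SB
open Finset
open Pool.Agent.K4H4.CL

lemma V_le' {Ω : Type} (r : ℕ) {M : Sys Ω} {Y : ℕ → Ω → ℝ} {K : ℕ} {σ : ℝ} (h : M.Hyp Y r K σ) (n : ℕ) (hn : n ≤ K) :
    M.V Y n ≤ (1 + 2 * r) * ∑ k ∈ range n, M.wt Y k := by
  obtain ⟨C, _, hs⟩ := Sys.step (Ω := Ω) r 0
  induction n with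
  | zero =>
      unfold Sys.V
      have e : (fun ω => Sys.S Y 0 ω ^ 2) = fun _ => (0 : ℝ) := by funext ω; simp [Sys.S]
      rw [e, M.const, sum_range_zero, mul_zero]
  | succ m ih =>
      have h2 := ih (by omega)
      have h3 := (hs M Y K σ h 1 zero_le_one m (by omega) (fun m' _ => by simp [M.one])).1
      have h4 := (_root_.abs_le.1 h3).2
      rw [sum_range_succ, mul_add]
      linarith

lemma fourth {Ω : Type} (r : ℕ) : ∃ C : ℝ, 0 ≤ C ∧ ∀ (M : Sys Ω) (Y : ℕ → Ω → ℝ) (K : ℕ) (σ : ℝ), M.Hyp Y r K σ →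
    M.E (fun ω => Sys.S Y K ω ^ 4) ≤ C * ((∑ k ∈ range K, M.wt Y k) ^ 2 + ∑ k ∈ range K, M.wt Y k) := by
  obtain ⟨C, hC, hs⟩ := Sys.step (Ω := Ω) r 1
  refine ⟨6 * (1 + 2 * r) ^ 2 + C * (2 + (1 + 2 * r)), by positivity, fun M Y K σ h => ?_⟩
  obtain ⟨Λ, hΛ⟩ : ∃ Λ, Λ = ∑ k ∈ range K, M.wt Y k := ⟨_, rfl⟩
  rw [← hΛ]
  have hw0 : ∀ k, 0 ≤ M.wt Y k := h.wt_nonneg
  have hΛn : ∀ n, n ≤ K → ∑ k ∈ range n, M.wt Y k ≤ Λ := by
    intro n hn
    rw [hΛ]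
    exact sum_le_sum_of_subset_of_nonneg (range_subset_range.2 hn) fun k _ _ => hw0 k
  have hΛ0 : 0 ≤ Λ := by rw [hΛ]; exact sum_nonneg fun k _ => hw0 k
  have hr0 : (0 : ℝ) ≤ r := Nat.cast_nonneg r
  have hV : ∀ n, n ≤ K → M.V Y n ≤ (1 + 2 * r) * Λ := fun n hn =>
    (V_le' r h n hn).trans (mul_le_mul_of_nonneg_left (hΛn n hn) (by positivity))
  obtain ⟨B, hB⟩ : ∃ B : ℝ, B = 1 + (1 + 2 * r) * Λ := ⟨_, rfl⟩
  have hB0 : 0 ≤ B := by rw [hB]; positivity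
  have hBm : ∀ m, m ≤ K → M.E (fun ω => |Sys.S Y m ω| ^ 1) ≤ B := by
    intro m hm
    have h1 : M.E (fun ω => |Sys.S Y m ω| ^ 1) ≤ M.E (fun ω => 1 + Sys.S Y m ω ^ 2) := by
      apply M.mono
      intro ω
      rw [pow_one]
      have h2 := sq_nonneg (|Sys.S Y m ω| - 1)
      have h3 := sq_abs (Sys.S Y m ω)
      have h4 := abs_nonneg (Sys.S Y m ω)
      nlinarith
    rw [M.add, M.one] at h1
    have h2 := hV m hm
    unfold Sys.V at h2
    rw [hB]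
    linarith
  have main : ∀ n, n ≤ K → M.E (fun ω => Sys.S Y n ω ^ 4) ≤ (6 * (1 + 2 * r) ^ 2 * Λ + C * (1 + B)) * ∑ k ∈ range n, M.wt Y k := by
    intro n hn
    induction n with
    | zero =>
        have e : (fun ω => Sys.S Y 0 ω ^ 4) = fun _ => (0 : ℝ) := by funext ω; simp [Sys.S]
        rw [e, M.const, sum_range_zero, mul_zero]
    | succ n ih =>
        have ih' := ih (by omega)
        obtain ⟨h1, h2⟩ := hs M Y K σ h B hB0 n (by omega) (fun m hm => hBm m (by omega))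
        have e4 : (1 + 3).choose 2 = 6 := rfl
        rw [e4] at h2
        norm_num at h2
        have h3 := (_root_.abs_le.1 h2).2
        have h4 : M.E (fun ω => Sys.S Y n ω ^ 2) = M.V Y n := rfl
        rw [h4] at h3
        have hV0 : 0 ≤ M.V Y n := Sys.V_nonneg M Y n
        have h5 : 6 * (M.V Y (n + 1) - M.V Y n) * M.V Y n ≤ 6 * ((1 + 2 * r) * M.wt Y n) * ((1 + 2 * r) * Λ) := by
          have h6 := (_root_.abs_le.1 h1).2
          have h7 : 0 ≤ (1 + 2 * (r : ℝ)) * M.wt Y n := mul_nonneg (by positivity) (hw0 n)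
          calc 6 * (M.V Y (n + 1) - M.V Y n) * M.V Y n ≤ 6 * ((1 + 2 * r) * M.wt Y n) * M.V Y n :=
                mul_le_mul_of_nonneg_right (by linarith) hV0
            _ ≤ _ := mul_le_mul_of_nonneg_left (hV n (by omega)) (by linarith)
        rw [sum_range_succ, mul_add]
        have e : (6 * (1 + 2 * (r : ℝ)) ^ 2 * Λ + C * (1 + B)) * M.wt Y n = 6 * ((1 + 2 * r) * M.wt Y n) * ((1 + 2 * r) * Λ) + C * (1 + B) * M.wt Y n := by ring
        rw [e]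
        linarith
  refine (main K le_rfl).trans ?_
  rw [← hΛ, hB]
  have h1 : 0 ≤ C * Λ := mul_nonneg hC hΛ0
  have h2 : 0 ≤ C * Λ ^ 2 := mul_nonneg hC (sq_nonneg _)
  have h3 : 0 ≤ 6 * (1 + 2 * (r : ℝ)) ^ 2 * Λ := by positivity
  have h4 : 0 ≤ C * (1 + 2 * r) * Λ := by positivity
  nlinarith

lemma dyad (L a T : ℕ) (ha : a < 2 ^ L) (hT : T < 2 ^ L) : (if a < T then (1 : ℝ) else 0) =
    ∑ j ∈ range L, if (T / 2 ^ j) % 2 = 1 ∧ a / 2 ^ j + 1 = T / 2 ^ j then (1 : ℝ) else 0 := by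
  have key : ∀ j, (if (T / 2 ^ j) % 2 = 1 ∧ a / 2 ^ j + 1 = T / 2 ^ j then (1 : ℝ) else 0) =
      (if a / 2 ^ j < T / 2 ^ j then (1 : ℝ) else 0) - (if a / 2 ^ (j + 1) < T / 2 ^ (j + 1) then (1 : ℝ) else 0) := by
    intro j
    have e1 : a / 2 ^ (j + 1) = (a / 2 ^ j) / 2 := by rw [pow_succ, Nat.div_div_eq_div_mul]
    have e2 : T / 2 ^ (j + 1) = (T / 2 ^ j) / 2 := by rw [pow_succ, Nat.div_div_eq_div_mul]
    rw [e1, e2]
    generalize a / 2 ^ j = x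
    generalize T / 2 ^ j = y
    by_cases h1 : x < y
    · by_cases h2 : x / 2 < y / 2
      · rw [if_pos h1, if_pos h2, if_neg (by omega)]
        ring
      · rw [if_pos h1, if_neg h2, if_pos (by omega)]
        ring
    · rw [if_neg h1, if_neg (by omega), if_neg (by omega)]
      ring
  rw [sum_congr rfl fun j _ => key j, sum_range_sub' (fun j => if a / 2 ^ j < T / 2 ^ j then (1 : ℝ) else 0)]
  have h0 : a / 2 ^ L = 0 := Nat.div_eq_of_lt ha
  have h1 : T / 2 ^ L = 0 := Nat.div_eq_of_lt hT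
  simp [h0, h1]

end Pool.Agent.K4H4.SB
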