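import Pool.Agent.K4H4.SB.Core

set_option autoImplicit false

/-! Ranks of the values, and the masses of the dyadic cells. -/

namespace Pool.Agent.K4H4.SB
open Finset
open Pool.Agent.K4H4.CL
open Pool.Agent.TH894.NE (box mem_box card_box Per mean two_mod mean_mono mean_const mean_add mean_mul)

variable {d : ℕ}

/-- the value number `l` depends on the residues modulo the prime number `l` -/
def PerV (θ : ℕ → (Fin d → ℤ) → ℝ) : Prop := ∀ l (t t' : Fin d → ℤ), (∀ i, (pr l : ℤ) ∣ t i - t' i) → θ l t = θ l t'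

/-- a number of the interval `[0, 1]`: the indicator of a condition on the value number `l` -/
noncomputable def ival (θ : ℕ → (Fin d → ℤ) → ℝ) (p : ℝ → Prop) (l : ℕ) (t : Fin d → ℤ) : ℝ := by
  classical exact if p (θ l t) then 1 else 0

lemma ival_nonneg (θ : ℕ → (Fin d → ℤ) → ℝ) (p : ℝ → Prop) (l : ℕ) (t : Fin d → ℤ) : 0 ≤ ival θ p l t := by
  unfold ival
  split_ifs <;> norm_num

lemma perZ_ival {θ : ℕ → (Fin d → ℤ) → ℝ} (hθ : PerV θ) (p : ℝ → Prop) (l : ℕ) : PerZ (pr l) (ival θ p l) := by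
  intro t t' h
  unfold ival
  rw [hθ l t t' h]

/-- the proportion of the residues -/
noncomputable def prop (θ : ℕ → (Fin d → ℤ) → ℝ) (p : ℝ → Prop) (l : ℕ) : ℝ := meanZ (pr l) (ival θ p l)

lemma prop_nonneg (θ : ℕ → (Fin d → ℤ) → ℝ) (p : ℝ → Prop) (l : ℕ) : 0 ≤ prop θ p l := meanZ_nonneg fun t => ival_nonneg θ p l t

lemma prop_mono (θ : ℕ → (Fin d → ℤ) → ℝ) (p q : ℝ → Prop) (l : ℕ) (h : ∀ t, p (θ l t) → q (θ l t)) : prop θ p l ≤ prop θ q l := by
  refine meanZ_mono fun t => ?_
  unfold ival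
  by_cases h1 : p (θ l t)
  · rw [if_pos h1, if_pos (h t h1)]
  · rw [if_neg h1]
    split_ifs <;> norm_num

lemma prop_le_one (θ : ℕ → (Fin d → ℤ) → ℝ) (p : ℝ → Prop) (l : ℕ) : prop θ p l ≤ 1 := by
  have h : ∀ t, ival θ p l t ≤ 1 := by
    intro t
    unfold ival
    split_ifs <;> norm_num
  exact (meanZ_mono h).trans (le_of_eq (meanZ_const (pr_prime l).one_lt.le 1))

lemma meanZ_eq {q : ℕ} (hq : 1 ≤ q) {f : (Fin d → ℤ) → ℝ} (hf : PerZ q f) : meanZ q f = mean d q (sh 0 f) := (mean_sh hq hf 0).symm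

lemma meanZ_pr {l L : ℕ} (hl : l < L) {f : (Fin d → ℤ) → ℝ} (hf : PerZ (pr l) f) : meanZ (PI (range L)) f = meanZ (pr l) f := by
  have e : PI {l} = pr l := by unfold PI; rw [prod_singleton]
  have hd : pr l ∣ PI (range L) := dvd_prod_of_mem _ (mem_range.2 hl)
  rw [meanZ_eq (PI_pos _) (hf.of_dvd hd), meanZ_eq (pr_prime l).one_lt.le hf]
  have h1 : Per (PI {l}) (sh 0 f) := by rw [e]; exact per_sh hf 0
  rw [mean_eq (I := {l}) (by
    intro x hx
    rw [mem_singleton] at hx
    rw [mem_range]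
    omega) _ h1, e]

/-- the values at the first `L` primes -/
noncomputable def vals (θ : ℕ → (Fin d → ℤ) → ℝ) (L : ℕ) : Finset ℝ :=
  (range L).biUnion (fun l => (box d (pr l)).image (fun n => θ l (fun i => (n i : ℤ))))

lemma mem_vals {θ : ℕ → (Fin d → ℤ) → ℝ} (hθ : PerV θ) {L l : ℕ} (hl : l < L) (t : Fin d → ℤ) : θ l t ∈ vals θ L := by
  unfold vals
  rw [mem_biUnion]
  refine ⟨l, mem_range.2 hl, ?_⟩
  rw [mem_image]
  have hp : (0 : ℤ) < pr l := by exact_mod_cast (pr_prime l).pos
  refine ⟨fun i => (t i % (pr l : ℤ)).toNat, ?_, ?_⟩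
  · rw [mem_box]
    intro i
    have h1 := Int.emod_nonneg (t i) hp.ne'
    have h2 := Int.emod_lt_of_pos (t i) hp
    show (t i % (pr l : ℤ)).toNat < pr l
    omega
  · apply hθ
    intro i
    have h1 := Int.emod_nonneg (t i) hp.ne'
    show (pr l : ℤ) ∣ (((t i % (pr l : ℤ)).toNat : ℕ) : ℤ) - t i
    rw [Int.toNat_of_nonneg h1]
    have h3 : t i % (pr l : ℤ) - t i = -(t i - t i % (pr l : ℤ)) := by ring
    rw [h3]
    exact (Int.dvd_self_sub_emod).neg_right

lemma card_vals (θ : ℕ → (Fin d → ℤ) → ℝ) (L : ℕ) : (vals θ L).card ≤ L * pr L ^ d := by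
  unfold vals
  refine card_biUnion_le.trans ?_
  calc ∑ l ∈ range L, ((box d (pr l)).image (fun n => θ l (fun i => (n i : ℤ)))).card ≤ ∑ _l ∈ range L, pr L ^ d := by
        refine sum_le_sum fun l hl => card_image_le.trans ?_
        rw [card_box]
        exact Nat.pow_le_pow_left (pr_mono (mem_range.1 hl).le) d
    _ = _ := by rw [sum_const, card_range, smul_eq_mul]

/-- the mass of a half line -/
noncomputable def mass (θ : ℕ → (Fin d → ℤ) → ℝ) (L : ℕ) (v : ℝ) : ℝ := ∑ l ∈ range L, prop θ (fun x => x < v) l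

lemma mass_nonneg (θ : ℕ → (Fin d → ℤ) → ℝ) (L : ℕ) (v : ℝ) : 0 ≤ mass θ L v := sum_nonneg fun l _ => prop_nonneg θ _ l

lemma mass_le (θ : ℕ → (Fin d → ℤ) → ℝ) (L : ℕ) (v : ℝ) : mass θ L v ≤ L := by
  unfold mass
  refine (sum_le_sum fun l _ => prop_le_one θ _ l).trans ?_
  rw [sum_const, card_range, nsmul_eq_mul, mul_one]

lemma mass_mono (θ : ℕ → (Fin d → ℤ) → ℝ) (L : ℕ) {v w : ℝ} (h : v ≤ w) : mass θ L v ≤ mass θ L w :=
  sum_le_sum fun l _ => prop_mono θ _ _ l fun _ h1 => lt_of_lt_of_le h1 h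

/-- the distribution function -/
noncomputable def gf (θ : ℕ → (Fin d → ℤ) → ℝ) (L : ℕ) (v : ℝ) : ℝ :=
  mass θ L v / L + (((vals θ L).filter (fun w => w < v)).card : ℝ) / (vals θ L).card

/-- the rank -/
noncomputable def rk (θ : ℕ → (Fin d → ℤ) → ℝ) (L b : ℕ) (v : ℝ) : ℕ := ⌊gf θ L v * 2 ^ b / 4⌋₊

lemma gf_nonneg (θ : ℕ → (Fin d → ℤ) → ℝ) (L : ℕ) (v : ℝ) : 0 ≤ gf θ L v := by
  unfold gf
  have := mass_nonneg θ L v
  positivity

lemma gf_le (θ : ℕ → (Fin d → ℤ) → ℝ) (L : ℕ) (v : ℝ) : gf θ L v ≤ 2 := by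
  unfold gf
  have h1 : mass θ L v / L ≤ 1 := div_le_one_of_le₀ (mass_le θ L v) (Nat.cast_nonneg _)
  have h2 : (((vals θ L).filter (fun w => w < v)).card : ℝ) / (vals θ L).card ≤ 1 :=
    div_le_one_of_le₀ (by exact_mod_cast card_le_card (filter_subset _ _)) (Nat.cast_nonneg _)
  linarith

lemma gf_mono (θ : ℕ → (Fin d → ℤ) → ℝ) (L : ℕ) {v w : ℝ} (h : v ≤ w) : gf θ L v ≤ gf θ L w := by
  unfold gf
  apply add_le_add
  · exact div_le_div_of_nonneg_right (mass_mono θ L h) (Nat.cast_nonneg _)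
  · apply div_le_div_of_nonneg_right _ (Nat.cast_nonneg _)
    have : (vals θ L).filter (fun x => x < v) ⊆ (vals θ L).filter (fun x => x < w) := by
      intro x hx
      rw [mem_filter] at hx ⊢
      exact ⟨hx.1, lt_of_lt_of_le hx.2 h⟩
    exact_mod_cast card_le_card this

lemma rk_lt (θ : ℕ → (Fin d → ℤ) → ℝ) (L b : ℕ) (v : ℝ) : rk θ L b v < 2 ^ b := by
  unfold rk
  have h1 := gf_nonneg θ L v
  rw [Nat.floor_lt (by positivity)]
  have h2 := gf_le θ L v
  push_cast
  have h3 : (0 : ℝ) < 2 ^ b := by positivity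
  nlinarith

lemma rk_mono (θ : ℕ → (Fin d → ℤ) → ℝ) (L b : ℕ) {v w : ℝ} (h : v ≤ w) : rk θ L b v ≤ rk θ L b w := by
  unfold rk
  apply Nat.floor_le_floor
  have := gf_mono θ L h
  have h3 : (0 : ℝ) < 2 ^ b := by positivity
  apply div_le_div_of_nonneg_right _ (by norm_num)
  exact mul_le_mul_of_nonneg_right this h3.le

lemma rk_strict (θ : ℕ → (Fin d → ℤ) → ℝ) (L b : ℕ) (hb : 4 * (vals θ L).card ≤ 2 ^ b) {v w : ℝ} (hv : v ∈ vals θ L) (h : v < w) :
    rk θ L b v < rk θ L b w := by
  have hW : (0 : ℝ) < (vals θ L).card := by exact_mod_cast card_pos.2 ⟨v, hv⟩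
  have hb' : 4 * ((vals θ L).card : ℝ) ≤ 2 ^ b := by exact_mod_cast hb
  have h1 : (((vals θ L).filter (fun x => x < v)).card : ℝ) + 1 ≤ ((vals θ L).filter (fun x => x < w)).card := by
    have h2 : insert v ((vals θ L).filter (fun x => x < v)) ⊆ (vals θ L).filter (fun x => x < w) := by
      intro x hx
      rw [mem_insert] at hx
      rw [mem_filter]
      rcases hx with rfl | hx
      · exact ⟨hv, h⟩
      · rw [mem_filter] at hx
        exact ⟨hx.1, hx.2.trans h⟩
    have h3 := card_le_card h2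
    rw [card_insert_of_notMem (by rw [mem_filter]; exact fun h4 => lt_irrefl _ h4.2)] at h3
    exact_mod_cast h3
  have h2 : gf θ L v + 1 / (vals θ L).card ≤ gf θ L w := by
    unfold gf
    have h3 : mass θ L v / L ≤ mass θ L w / L := div_le_div_of_nonneg_right (mass_mono θ L h.le) (Nat.cast_nonneg _)
    have h4 : (((vals θ L).filter (fun x => x < v)).card : ℝ) / (vals θ L).card + 1 / (vals θ L).card ≤
        (((vals θ L).filter (fun x => x < w)).card : ℝ) / (vals θ L).card := by
      rw [← add_div]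
      exact div_le_div_of_nonneg_right h1 hW.le
    linarith
  have h3 : gf θ L v * 2 ^ b / 4 + 1 ≤ gf θ L w * 2 ^ b / 4 := by
    have h4 : (1 : ℝ) ≤ 1 / (vals θ L).card * 2 ^ b / 4 := by
      rw [one_div_mul_eq_div, div_div, le_div_iff₀ (by positivity)]
      linarith
    have h5 : (gf θ L v + 1 / (vals θ L).card) * 2 ^ b ≤ gf θ L w * 2 ^ b := mul_le_mul_of_nonneg_right h2 (by positivity)
    linarith
  have h4 : 0 ≤ gf θ L v * 2 ^ b / 4 := by have := gf_nonneg θ L v; positivity
  unfold rk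
  have h5 := Nat.floor_le_floor h3
  rw [Nat.floor_add_one h4] at h5
  omega

lemma rk_iff (θ : ℕ → (Fin d → ℤ) → ℝ) (L b : ℕ) (hb : 4 * (vals θ L).card ≤ 2 ^ b) {v : ℝ} (w : ℝ) (hv : v ∈ vals θ L) :
    v < w ↔ rk θ L b v < rk θ L b w := by
  constructor
  · exact rk_strict θ L b hb hv
  · intro h
    by_contra h1
    have := rk_mono θ L b (not_lt.1 h1)
    omega

/-- the mass of a cell -/
lemma cell_mass {θ : ℕ → (Fin d → ℤ) → ℝ} (hθ : PerV θ) (L b j c : ℕ) (v : ℝ) (hv : rk θ L b v / 2 ^ j = c + 1) :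
    ∑ l ∈ range L, prop θ (fun x => rk θ L b x / 2 ^ j = c) l * 2 ^ b ≤ 8 * L * 2 ^ j := by
  classical
  by_cases hL : L = 0
  · subst hL
    simp
  have hL0 : (0 : ℝ) < L := by exact_mod_cast Nat.pos_of_ne_zero hL
  rw [← sum_mul]
  by_cases he : ((vals θ L).filter (fun x => rk θ L b x / 2 ^ j = c)).Nonempty
  · obtain ⟨w, hw, hmin⟩ := exists_min_image _ id he
    rw [mem_filter] at hw
    simp only [id] at hmin
    have h2j : 0 < 2 ^ j := by positivity
    have h1 : c * 2 ^ j ≤ rk θ L b w := by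
      have := Nat.div_mul_le_self (rk θ L b w) (2 ^ j)
      rwa [hw.2] at this
    have h2 : rk θ L b v < (c + 2) * 2 ^ j := by
      have := Nat.lt_succ_self (rk θ L b v / 2 ^ j)
      rw [hv] at this
      have h3 := Nat.lt_mul_div_succ (rk θ L b v) h2j
      rw [hv] at h3
      calc rk θ L b v < 2 ^ j * (c + 1 + 1) := h3
        _ = _ := by ring
    have h3 : gf θ L v * 2 ^ b / 4 < rk θ L b v + 1 := Nat.lt_floor_add_one _
    have h4 : (rk θ L b w : ℝ) ≤ gf θ L w * 2 ^ b / 4 := Nat.floor_le (by have := gf_nonneg θ L w; positivity)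
    have h5 : (rk θ L b v : ℝ) + 1 ≤ rk θ L b w + 2 * 2 ^ j := by
      have : rk θ L b v + 1 ≤ rk θ L b w + 2 * 2 ^ j := by
        have e : (c + 2) * 2 ^ j = c * 2 ^ j + 2 * 2 ^ j := by ring
        omega
      exact_mod_cast this
    have h6 : (gf θ L v - gf θ L w) * 2 ^ b ≤ 8 * 2 ^ j := by linarith
    have h7 : mass θ L v - mass θ L w ≤ L * (gf θ L v - gf θ L w) := by
      have hwv : w ≤ v := by
        by_contra h8
        have h9 := rk_mono θ L b (not_le.1 h8).le
        have h10 : (c + 1) * 2 ^ j ≤ rk θ L b v := by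
          have := Nat.div_mul_le_self (rk θ L b v) (2 ^ j)
          rwa [hv] at this
        have h11 : rk θ L b w < (c + 1) * 2 ^ j := by
          have h3 := Nat.lt_mul_div_succ (rk θ L b w) h2j
          rw [hw.2] at h3
          calc rk θ L b w < 2 ^ j * (c + 1) := h3
            _ = _ := by ring
        omega
      have h8 : (((vals θ L).filter (fun x => x < w)).card : ℝ) / (vals θ L).card ≤
          (((vals θ L).filter (fun x => x < v)).card : ℝ) / (vals θ L).card := by
        apply div_le_div_of_nonneg_right _ (Nat.cast_nonneg _)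
        have : (vals θ L).filter (fun x => x < w) ⊆ (vals θ L).filter (fun x => x < v) := by
          intro x hx
          rw [mem_filter] at hx ⊢
          exact ⟨hx.1, lt_of_lt_of_le hx.2 hwv⟩
        exact_mod_cast card_le_card this
      have h9 : (L : ℝ) * (gf θ L v - gf θ L w) = (mass θ L v - mass θ L w) +
          L * ((((vals θ L).filter (fun x => x < v)).card : ℝ) / (vals θ L).card - (((vals θ L).filter (fun x => x < w)).card : ℝ) / (vals θ L).card) := by
        unfold gf
        field_simp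
        ring
      rw [h9]
      have : 0 ≤ (L : ℝ) * ((((vals θ L).filter (fun x => x < v)).card : ℝ) / (vals θ L).card - (((vals θ L).filter (fun x => x < w)).card : ℝ) / (vals θ L).card) :=
        mul_nonneg hL0.le (sub_nonneg.2 h8)
      linarith
    have h8 : ∑ l ∈ range L, prop θ (fun x => rk θ L b x / 2 ^ j = c) l ≤ mass θ L v - mass θ L w := by
      unfold mass
      rw [← sum_sub_distrib]
      refine sum_le_sum fun l hl => ?_
      have h9 : prop θ (fun x => rk θ L b x / 2 ^ j = c) l + prop θ (fun x => x < w) l ≤ prop θ (fun x => x < v) l := by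
        unfold prop
        rw [← meanZ_add]
        refine meanZ_mono fun t => ?_
        have hm := mem_vals hθ (mem_range.1 hl) t
        unfold ival
        by_cases h10 : rk θ L b (θ l t) / 2 ^ j = c
        · have h11 : w ≤ θ l t := hmin _ (mem_filter.2 ⟨hm, h10⟩)
          have h12 : θ l t < v := by
            by_contra h13
            have h14 := rk_mono θ L b (not_lt.1 h13)
            have h15 : (c + 1) * 2 ^ j ≤ rk θ L b v := by
              have := Nat.div_mul_le_self (rk θ L b v) (2 ^ j)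
              rwa [hv] at this
            have h16 : rk θ L b (θ l t) < (c + 1) * 2 ^ j := by
              have h3 := Nat.lt_mul_div_succ (rk θ L b (θ l t)) h2j
              rw [h10] at h3
              calc rk θ L b (θ l t) < 2 ^ j * (c + 1) := h3
                _ = _ := by ring
            omega
          rw [if_pos h10, if_neg (not_lt.2 h11), if_pos h12]
          norm_num
        · rw [if_neg h10]
          by_cases h11 : θ l t < w
          · have h12 : w ≤ v := by
              by_contra h8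
              have h9 := rk_mono θ L b (not_le.1 h8).le
              have h10 : (c + 1) * 2 ^ j ≤ rk θ L b v := by
                have := Nat.div_mul_le_self (rk θ L b v) (2 ^ j)
                rwa [hv] at this
              have h11 : rk θ L b w < (c + 1) * 2 ^ j := by
                have h3 := Nat.lt_mul_div_succ (rk θ L b w) h2j
                rw [hw.2] at h3
                calc rk θ L b w < 2 ^ j * (c + 1) := h3
                  _ = _ := by ring
              omega
            rw [if_pos h11, if_pos (lt_of_lt_of_le h11 h12)]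
            norm_num
          · rw [if_neg h11]
            split_ifs <;> norm_num
      linarith
    calc (∑ l ∈ range L, prop θ (fun x => rk θ L b x / 2 ^ j = c) l) * 2 ^ b ≤ (L * (gf θ L v - gf θ L w)) * 2 ^ b :=
          mul_le_mul_of_nonneg_right (h8.trans h7) (by positivity)
      _ = L * ((gf θ L v - gf θ L w) * 2 ^ b) := by ring
      _ ≤ L * (8 * 2 ^ j) := mul_le_mul_of_nonneg_left h6 hL0.le
      _ = _ := by ring
  · have h0 : ∀ l ∈ range L, prop θ (fun x => rk θ L b x / 2 ^ j = c) l = 0 := by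
      intro l hl
      unfold prop
      have e : ival θ (fun x => rk θ L b x / 2 ^ j = c) l = fun _ => 0 := by
        funext t
        unfold ival
        rw [if_neg]
        intro h1
        exact he ⟨_, mem_filter.2 ⟨mem_vals hθ (mem_range.1 hl) t, h1⟩⟩
      rw [e]
      exact meanZ_const (pr_prime l).one_lt.le 0
    rw [sum_eq_zero h0, zero_mul]
    positivity

end Pool.Agent.K4H4.SB
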