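import Pool.Agent.K4H4.SB.Mass

set_option autoImplicit false

/-! All orthants, for arbitrary functions of the residues modulo `s` consecutive primes. -/

namespace Pool.Agent.K4H4.SB
open Finset
open Pool.Agent.K4H4.CL
open Pool.Agent.TH894.NE (box mem_box card_box Per mean two_mod mean_mono mean_const mean_add mean_mul)

variable {d : ℕ}

/-- the index and the ranks of the `s` values -/
noncomputable def ph (θ : ℕ → (Fin d → ℤ) → ℝ) (s K b : ℕ) : Fin (s + 1) → ℕ → (Fin d → ℤ) → ℕ :=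
  Fin.cases (fun k _ => k) (fun i k t => rk θ (K + s) b (θ (k + i) t))

/-- the numbers of levels -/
def lev (s a b : ℕ) : Fin (s + 1) → ℕ := Fin.cases a (fun _ => b)

/-- the thresholds -/
def adm (θ : ℕ → (Fin d → ℤ) → ℝ) (s K b : ℕ) : Fin (s + 1) → ℕ → Prop :=
  Fin.cases (fun T => T ≤ K) (fun _ T => ∃ v, T = rk θ (K + s) b v)

lemma ph_per {θ : ℕ → (Fin d → ℤ) → ℝ} (hθ : PerV θ) (s K b : ℕ) (i : Fin (s + 1)) (k : ℕ) (t t' : Fin d → ℤ)
    (h : ∀ l, (PI (Ico k (k + s)) : ℤ) ∣ t l - t' l) : ph θ s K b i k t = ph θ s K b i k t' := by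
  refine Fin.cases rfl (fun i => ?_) i
  show rk θ (K + s) b (θ (k + i) t) = rk θ (K + s) b (θ (k + i) t')
  rw [hθ (k + i) t t']
  intro l
  refine (Int.natCast_dvd_natCast.2 ?_).trans (h l)
  exact dvd_prod_of_mem _ (by rw [mem_Ico]; omega)

lemma card_cell (j c K : ℕ) : ∑ k ∈ range K, (if k / 2 ^ j = c then (1 : ℝ) else 0) ≤ 2 ^ j := by
  rw [sum_ite, sum_const_zero, add_zero, sum_const, nsmul_eq_mul, mul_one]
  have h : (range K).filter (fun k => k / 2 ^ j = c) ⊆ Ico (c * 2 ^ j) (c * 2 ^ j + 2 ^ j) := by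
    intro k hk
    rw [mem_filter] at hk
    rw [mem_Ico]
    have h2j : 0 < 2 ^ j := by positivity
    have h1 := Nat.div_mul_le_self k (2 ^ j)
    have h3 := Nat.lt_mul_div_succ k h2j
    rw [hk.2] at h1 h3
    have e : 2 ^ j * (c + 1) = c * 2 ^ j + 2 ^ j := by ring
    omega
  have h1 := card_le_card h
  rw [Nat.card_Ico] at h1
  have h2 : c * 2 ^ j + 2 ^ j - c * 2 ^ j = 2 ^ j := Nat.add_sub_cancel_left _ _
  rw [h2] at h1
  exact_mod_cast h1

lemma mu_eq {g : ℕ → (Fin d → ℤ) → ℝ} (r K : ℕ) : mu g r K = ∑ k ∈ range K, meanZ (PI (range (K + r))) (g k) := by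
  unfold mu
  have e : tot g K = fun t => ∑ k ∈ range K, g k t := rfl
  rw [e, meanZ_sum]

lemma sum_shift (f : ℕ → ℝ) (hf : ∀ l, 0 ≤ f l) (K s i : ℕ) (hi : i ≤ s) : ∑ k ∈ range K, f (k + i) ≤ ∑ l ∈ range (K + s), f l := by
  have h1 : ∑ k ∈ range K, f (k + i) = ∑ l ∈ Ico i (K + i), f l := by
    rw [sum_Ico_eq_sum_range]
    have : K + i - i = K := by omega
    rw [this]
    exact sum_congr rfl fun k _ => by rw [add_comm]
  rw [h1]
  apply sum_le_sum_of_subset_of_nonneg _ fun l _ _ => hf l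
  intro l hl
  rw [mem_Ico] at hl
  rw [mem_range]
  omega

lemma ph_mass {θ : ℕ → (Fin d → ℤ) → ℝ} (hθ : PerV θ) (s K b : ℕ) (hK : 1 ≤ K) (hs : s ≤ K) (i : Fin (s + 1)) (j c : ℕ)
    (hj : j < lev s (Nat.log 2 K + 1) b i) (hT : ∃ T, adm θ s K b i T ∧ T / 2 ^ j = c + 1) :
    mu (fun k t => if ph θ s K b i k t / 2 ^ j = c then (1 : ℝ) else 0) s K ≤ 16 * K * (1 / 2) ^ (lev s (Nat.log 2 K + 1) b i - j) := by
  revert hj hT
  refine Fin.cases ?_ (fun i => ?_) i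
  · intro hj _
    have hj' : j < Nat.log 2 K + 1 := hj
    show mu (fun k _ => if k / 2 ^ j = c then (1 : ℝ) else 0) s K ≤ 16 * K * (1 / 2) ^ (Nat.log 2 K + 1 - j)
    rw [mu_eq]
    have h1 : ∑ k ∈ range K, meanZ (d := d) (PI (range (K + s))) (fun _ => if k / 2 ^ j = c then (1 : ℝ) else 0) =
        ∑ k ∈ range K, (if k / 2 ^ j = c then (1 : ℝ) else 0) := sum_congr rfl fun k _ => meanZ_const (PI_pos _) _
    rw [h1]
    refine (card_cell j c K).trans ?_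
    have h2 : (2 : ℝ) ^ (Nat.log 2 K) ≤ K := by exact_mod_cast Nat.pow_log_le_self 2 (by omega : K ≠ 0)
    have h3 : (2 : ℝ) ^ j = 2 ^ (Nat.log 2 K + 1) * (1 / 2) ^ (Nat.log 2 K + 1 - j) := by
      obtain ⟨e, he⟩ : ∃ e, Nat.log 2 K + 1 = j + e := ⟨Nat.log 2 K + 1 - j, by omega⟩
      rw [he, Nat.add_sub_cancel_left, pow_add, mul_assoc, ← mul_pow]
      norm_num
    rw [h3, pow_succ]
    have h4 : (0 : ℝ) < (1 / 2) ^ (Nat.log 2 K + 1 - j) := by positivity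
    have h5 : (0 : ℝ) < K := by exact_mod_cast hK
    apply mul_le_mul_of_nonneg_right _ h4.le
    linarith
  · intro hj hT
    have hj' : j < b := hj
    obtain ⟨T, ⟨v, hv⟩, hTc⟩ := hT
    rw [hv] at hTc
    show mu (fun k t => if rk θ (K + s) b (θ (k + i) t) / 2 ^ j = c then (1 : ℝ) else 0) s K ≤ 16 * K * (1 / 2) ^ (b - j)
    rw [mu_eq]
    have h1 : ∑ k ∈ range K, meanZ (PI (range (K + s))) (fun t => if rk θ (K + s) b (θ (k + i) t) / 2 ^ j = c then (1 : ℝ) else 0) =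
        ∑ k ∈ range K, prop θ (fun x => rk θ (K + s) b x / 2 ^ j = c) (k + i) := by
      refine sum_congr rfl fun k hk => ?_
      have e : (fun t => if rk θ (K + s) b (θ (k + i) t) / 2 ^ j = c then (1 : ℝ) else 0) =
          ival θ (fun x => rk θ (K + s) b x / 2 ^ j = c) (k + i) := by
        funext t
        unfold ival
        split_ifs <;> rfl
      rw [e]
      have := mem_range.1 hk
      exact meanZ_pr (by omega) (perZ_ival hθ _ _)
    rw [h1]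
    have h2 := sum_shift (fun l => prop θ (fun x => rk θ (K + s) b x / 2 ^ j = c) l) (fun l => prop_nonneg θ _ l) K s i (by omega)
    refine h2.trans ?_
    have h3 := cell_mass hθ (K + s) b j c v hTc
    rw [← sum_mul] at h3
    have h4 : (2 : ℝ) ^ b = 2 ^ j * 2 ^ (b - j) := by
      rw [← pow_add]
      congr 1
      omega
    have h5 : (0 : ℝ) < 2 ^ j := by positivity
    have h6 : (0 : ℝ) < 2 ^ (b - j) := by positivity
    have hsK : (s : ℝ) ≤ K := by exact_mod_cast hs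
    have h7 : (∑ l ∈ range (K + s), prop θ (fun x => rk θ (K + s) b x / 2 ^ j = c) l) * 2 ^ (b - j) ≤ 16 * K := by
      have h8 : ((∑ l ∈ range (K + s), prop θ (fun x => rk θ (K + s) b x / 2 ^ j = c) l) * 2 ^ (b - j)) * 2 ^ j ≤ (8 * ((K + s : ℕ) : ℝ)) * 2 ^ j := by
        rw [h4] at h3
        calc _ = (∑ l ∈ range (K + s), prop θ (fun x => rk θ (K + s) b x / 2 ^ j = c) l) * (2 ^ j * 2 ^ (b - j)) := by ring
          _ ≤ _ := h3
      have h9 := le_of_mul_le_mul_right h8 h5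
      push_cast at h9
      linarith
    rw [one_div, inv_pow, ← div_eq_mul_inv, le_div_iff₀ h6]
    exact h7

/-- the indicator function of an orthant of `s` consecutive values, up to a time -/
noncomputable def orth (θ : ℕ → (Fin d → ℤ) → ℝ) (s K' : ℕ) (v : Fin s → ℝ) (k : ℕ) (t : Fin d → ℤ) : ℝ :=
  (if k < K' then (1 : ℝ) else 0) * ∏ i : Fin s, ival θ (fun x => x < v i) (k + i) t

lemma orth_eq {θ : ℕ → (Fin d → ℤ) → ℝ} (hθ : PerV θ) (s K b : ℕ) (hb : 4 * (vals θ (K + s)).card ≤ 2 ^ b) (K' : ℕ) (v : Fin s → ℝ)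
    (k : ℕ) (hk : k < K) (t : Fin d → ℤ) :
    orth θ s K' v k t = low (ph θ s K b) (Fin.cases K' (fun i => rk θ (K + s) b (v i))) k t := by
  unfold orth low
  rw [Fin.prod_univ_succ]
  congr 1
  refine prod_congr rfl fun i _ => ?_
  show ival θ (fun x => x < v i) (k + i) t = if rk θ (K + s) b (θ (k + i) t) < rk θ (K + s) b (v i) then (1 : ℝ) else 0
  have h1 := rk_iff θ (K + s) b hb (v i) (mem_vals hθ (by omega : k + (i : ℕ) < K + s) t)
  unfold ival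
  by_cases h : θ (k + i) t < v i
  · rw [if_pos h, if_pos (h1.1 h)]
  · rw [if_neg h, if_neg (fun h2 => h (h1.2 h2))]

lemma dev_congr {g g' : ℕ → (Fin d → ℤ) → ℝ} (r K : ℕ) (h : ∀ k, k < K → ∀ t, g k t = g' k t) (t : Fin d → ℤ) : dev g r K t = dev g' r K t := by
  have h1 := dev_sum ({0} : Finset ℕ) (fun _ => 1) (fun _ => g') g r K (fun k hk t => by rw [sum_singleton, one_mul]; exact h k hk t) t
  rwa [sum_singleton, one_mul] at h1

/-- a power of the logarithm against a power -/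
lemma lev_le (c s : ℕ) (K : ℕ) (hK : 2 ≤ K) (b : ℕ) (hb : (2 : ℝ) ^ b ≤ (K : ℝ) ^ c) :
    (b : ℝ) ≤ (8 * c * (s + 1)) * (K : ℝ) ^ (1 / (4 * ((s : ℝ) + 1))) := by
  have hK1 : (1 : ℝ) ≤ K := by exact_mod_cast (by omega : 1 ≤ K)
  have hK0 : (0 : ℝ) < K := by linarith
  have hs0 : (0 : ℝ) < (s : ℝ) + 1 := by positivity
  have h1 := Real.log_le_log (by positivity) hb
  rw [Real.log_pow, Real.log_pow] at h1
  have hl2 : (1 / 2 : ℝ) < Real.log 2 := by have := Real.log_two_gt_d9; linarith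
  have hlogK : 0 ≤ Real.log K := Real.log_nonneg hK1
  have hx : Real.log K ≤ 4 * (s + 1) * (K : ℝ) ^ (1 / (4 * ((s : ℝ) + 1))) := by
    have h2 := Real.log_le_sub_one_of_pos (Real.rpow_pos_of_pos hK0 (1 / (4 * ((s : ℝ) + 1))))
    rw [Real.log_rpow hK0] at h2
    have h3 : 1 / (4 * ((s : ℝ) + 1)) * Real.log K ≤ (K : ℝ) ^ (1 / (4 * ((s : ℝ) + 1))) := by linarith
    rw [one_div_mul_eq_div, div_le_iff₀ (by positivity)] at h3
    linarith
  have hb0 : (0 : ℝ) ≤ b := Nat.cast_nonneg b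
  have hc0 : (0 : ℝ) ≤ c := Nat.cast_nonneg c
  have h4 : (b : ℝ) ≤ 2 * (c * Real.log K) := by nlinarith
  refine h4.trans ?_
  have h5 := mul_le_mul_of_nonneg_left hx hc0
  linarith

theorem orthants (d s : ℕ) (hs : 1 ≤ s) : ∃ (C : ℕ) (A : ℝ), 0 ≤ A ∧ ∀ θ : ℕ → (Fin d → ℤ) → ℝ, PerV θ →
    ∀ (K : ℕ) (N : Fin d → ℕ) (u : Fin d → ℤ), C ≤ K → (∀ i, K ^ C ≤ N i) → ∃ Zt : (Fin d → ℤ) → ℝ, (∀ t, 0 ≤ Zt t) ∧
      (∀ t K' v, K' ≤ K → |dev (orth θ s K' v) s K t| ≤ Zt t) ∧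
      ∑ n ∈ par N, Zt (fun i => u i + n i) ≤ A * Real.sqrt K * ∏ i, (N i : ℝ) := by
  obtain ⟨C₁, C₂, hC₁, hC₂, hchain⟩ := chain d s (s + 1) hs (by omega)
  obtain ⟨K₀, hK₀⟩ := pr_le s
  obtain ⟨c, hc⟩ : ∃ c : ℕ, c = 3 * d + 6 := ⟨_, rfl⟩
  obtain ⟨c', hc'⟩ : ∃ c' : ℝ, c' = 8 * c * (s + 1) := ⟨_, rfl⟩
  have hc'0 : 0 ≤ c' := by rw [hc']; positivity
  refine ⟨K₀ + s + 2 + (4 + 12 * s + d + 2 + c * s), C₁ + c' ^ (s + 1) * (C₂ + 1), by positivity, fun θ hθ K N u hK hN => ?_⟩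
  have hK2 : 2 ≤ K := by omega
  have hK1' : 1 ≤ K := by omega
  have hK1 : (1 : ℝ) ≤ K := by exact_mod_cast hK1'
  have hK2' : (2 : ℝ) ≤ K := by exact_mod_cast hK2
  have hK0 : (0 : ℝ) < K := by linarith
  have hsK : s ≤ K := by omega
  have hp := hK₀ K (by omega)
  have hp1 : (1 : ℝ) ≤ pr (K + s) := by exact_mod_cast (pr_prime _).one_lt.le
  -- the levels
  obtain ⟨W, hW⟩ : ∃ W, W = (vals θ (K + s)).card := ⟨_, rfl⟩
  have hWle : (W : ℝ) ≤ 2 * K * (K : ℝ) ^ (3 * d) := by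
    have h1 : (W : ℝ) ≤ ((K + s : ℕ) : ℝ) * (pr (K + s) : ℝ) ^ d := by rw [hW]; exact_mod_cast card_vals θ (K + s)
    refine h1.trans ?_
    have h2 : ((K + s : ℕ) : ℝ) ≤ 2 * K := by
      push_cast
      have : (s : ℝ) ≤ K := by exact_mod_cast hsK
      linarith
    have h3 : (pr (K + s) : ℝ) ^ d ≤ (K : ℝ) ^ (3 * d) := by
      rw [pow_mul]
      exact pow_le_pow_left₀ (by positivity) hp d
    exact mul_le_mul h2 h3 (by positivity) (by positivity)
  obtain ⟨b, hb⟩ : ∃ b, b = Nat.log 2 (4 * W + 4) + 1 := ⟨_, rfl⟩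
  have hb1 : 4 * (vals θ (K + s)).card ≤ 2 ^ b := by
    rw [← hW, hb]
    have := Nat.lt_pow_succ_log_self (by norm_num : 1 < 2) (4 * W + 4)
    rw [Nat.succ_eq_add_one] at this
    omega
  have hKd : (1 : ℝ) ≤ K * (K : ℝ) ^ (3 * d) := by
    have : (1 : ℝ) ≤ (K : ℝ) ^ (3 * d) := one_le_pow₀ hK1
    nlinarith
  have h2n : ∀ n : ℕ, (2 : ℝ) ^ n ≤ (K : ℝ) ^ n := fun n => pow_le_pow_left₀ (by norm_num) hK2' n
  have hb2 : (2 : ℝ) ^ b ≤ (K : ℝ) ^ c := by
    have h1 : (2 : ℝ) ^ (Nat.log 2 (4 * W + 4)) ≤ 4 * W + 4 := by exact_mod_cast Nat.pow_log_le_self 2 (by omega : 4 * W + 4 ≠ 0)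
    rw [hb, pow_succ]
    have h2 : (2 : ℝ) ^ (Nat.log 2 (4 * W + 4)) * 2 ≤ 2 ^ 5 * (K * (K : ℝ) ^ (3 * d)) := by linarith
    refine h2.trans ?_
    have h3 : (K : ℝ) ^ c = (K : ℝ) ^ 5 * (K * (K : ℝ) ^ (3 * d)) := by rw [hc]; ring
    rw [h3]
    exact mul_le_mul_of_nonneg_right (h2n 5) (by positivity)
  obtain ⟨L, hL⟩ : ∃ L, L = lev s (Nat.log 2 K + 1) b := ⟨_, rfl⟩
  have hL0 : L 0 = Nat.log 2 K + 1 := by rw [hL]; rfl
  have hLs : ∀ i : Fin s, L i.succ = b := fun i => by rw [hL]; rfl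
  have hlog1 : K < 2 ^ (Nat.log 2 K + 1) := Nat.lt_pow_succ_log_self (by norm_num) K
  have hlog2 : (2 : ℝ) ^ (Nat.log 2 K + 1) ≤ (K : ℝ) ^ 2 := by
    have h1 : (2 : ℝ) ^ (Nat.log 2 K) ≤ K := by exact_mod_cast Nat.pow_log_le_self 2 (by omega : K ≠ 0)
    rw [pow_succ, sq]
    exact mul_le_mul h1 hK2' (by norm_num) hK0.le
  have hprod : ∏ i, (2 : ℝ) ^ L i = 2 ^ (Nat.log 2 K + 1) * (2 ^ b) ^ s := by
    rw [Fin.prod_univ_succ, hL0]
    congr 1
    rw [prod_congr rfl (fun i _ => by rw [hLs i]), prod_const, card_univ, Fintype.card_fin]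
  obtain ⟨σ, hσ⟩ : ∃ σ : ℝ, σ = 2 ^ d * ∏ i, (2 : ℝ) ^ L i := ⟨_, rfl⟩
  have hσ1 : (K : ℝ) ≤ σ := by
    have h1 : (K : ℝ) ≤ 2 ^ (Nat.log 2 K + 1) := by exact_mod_cast hlog1.le
    have h2 : (1 : ℝ) ≤ (2 ^ b) ^ s := one_le_pow₀ (one_le_pow₀ (by norm_num))
    have h3 : (1 : ℝ) ≤ 2 ^ d := one_le_pow₀ (by norm_num)
    rw [hσ, hprod]
    calc (K : ℝ) = 1 * (K * 1) := by ring
      _ ≤ 2 ^ d * (2 ^ (Nat.log 2 K + 1) * (2 ^ b) ^ s) := by
        apply mul_le_mul h3 _ (by positivity) (by positivity)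
        exact mul_le_mul h1 h2 (by norm_num) (by positivity)
  have hσ2 : (K : ℝ) ≤ σ ^ 2 := by
    rw [sq]
    calc (K : ℝ) = K * 1 := by ring
      _ ≤ σ * σ := mul_le_mul hσ1 (hK1.trans hσ1) (by norm_num) (hK0.le.trans hσ1)
  have hσ3 : σ ≤ (K : ℝ) ^ (d + 2 + c * s) := by
    rw [hσ, hprod]
    have h1 : ((2 : ℝ) ^ b) ^ s ≤ (K : ℝ) ^ (c * s) := by
      rw [pow_mul]
      exact pow_le_pow_left₀ (by positivity) hb2 s
    calc (2 : ℝ) ^ d * (2 ^ (Nat.log 2 K + 1) * (2 ^ b) ^ s) ≤ K ^ d * (K ^ 2 * K ^ (c * s)) := by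
          apply mul_le_mul (h2n d) _ (by positivity) (by positivity)
          exact mul_le_mul hlog2 h1 (by positivity) (by positivity)
      _ = (K : ℝ) ^ (d + 2 + c * s) := by rw [pow_add, pow_add]; ring
  have hNσ : ∀ i, (K : ℝ) ^ (2 * 2) * (pr (K + s) : ℝ) ^ (2 * 2 * s) * σ ≤ N i := by
    intro i
    have h1 : ((K ^ (K₀ + s + 2 + (4 + 12 * s + d + 2 + c * s)) : ℕ) : ℝ) ≤ N i := by exact_mod_cast hN i
    refine le_trans ?_ h1
    have h2 : (pr (K + s) : ℝ) ^ (2 * 2 * s) ≤ (K : ℝ) ^ (12 * s) := by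
      have e : (K : ℝ) ^ (12 * s) = ((K : ℝ) ^ 3) ^ (2 * 2 * s) := by
        rw [← pow_mul]
        congr 1
        ring
      rw [e]
      exact pow_le_pow_left₀ (by positivity) hp _
    have h3 : (K : ℝ) ^ (2 * 2) * (pr (K + s) : ℝ) ^ (2 * 2 * s) * σ ≤ (K : ℝ) ^ (4 + 12 * s + d + 2 + c * s) := by
      calc (K : ℝ) ^ (2 * 2) * (pr (K + s) : ℝ) ^ (2 * 2 * s) * σ ≤ (K : ℝ) ^ (2 * 2) * (K : ℝ) ^ (12 * s) * (K : ℝ) ^ (d + 2 + c * s) := by
            apply mul_le_mul _ hσ3 (by linarith) (by positivity)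
            exact mul_le_mul_of_nonneg_left h2 (by positivity)
        _ = _ := by
            rw [← pow_add, ← pow_add]
            congr 1
            ring
    refine h3.trans ?_
    push_cast
    exact pow_le_pow_right₀ hK1 (by omega)
  have hZ := hchain (ph θ s K b) L (adm θ s K b) K σ N u (fun i k t t' h => ph_per hθ s K b i k t t' h) hK1' hσ.ge hσ2 hNσ
    (fun i j cc hj hT => by rw [hL] at hj ⊢; exact ph_mass hθ s K b hK1' hsK i j cc hj hT)
  refine ⟨Z (ph θ s K b) L (adm θ s K b) s K, fun t => Z_nonneg _ _ _ _ _ _, ?_, ?_⟩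
  · intro t K' v hK'
    rw [dev_congr s K (fun k hk t => orth_eq hθ s K b hb1 K' v k hk t) t]
    apply Z_bound
    · intro i k t hk
      refine Fin.cases ?_ (fun i => ?_) i
      · show k < 2 ^ L 0
        rw [hL0]
        omega
      · show rk θ (K + s) b (θ (k + i) t) < 2 ^ L i.succ
        rw [hLs]
        exact rk_lt _ _ _ _
    · intro i T
      refine Fin.cases ?_ (fun i => ?_) i
      · intro h
        have h' : T ≤ K := h
        rw [hL0]
        omega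
      · intro h
        obtain ⟨v, hv⟩ := h
        rw [hLs, hv]
        exact rk_lt _ _ _ _
    · intro i
      refine Fin.cases ?_ (fun i => ?_) i
      · exact hK'
      · exact ⟨v i, rfl⟩
  · refine hZ.trans ?_
    apply mul_le_mul_of_nonneg_right _ (by positivity)
    have hx0 : (0 : ℝ) < (K : ℝ) ^ (1 / (4 * ((s : ℝ) + 1))) := Real.rpow_pos_of_pos hK0 _
    have h1 : ∀ i, (L i : ℝ) ≤ c' * (K : ℝ) ^ (1 / (4 * ((s : ℝ) + 1))) := by
      intro i
      refine Fin.cases ?_ (fun i => ?_) i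
      · rw [hc']
        apply lev_le c s K hK2
        rw [hL0]
        refine hlog2.trans ?_
        exact pow_le_pow_right₀ hK1 (by omega)
      · rw [hc', hLs]
        exact lev_le c s K hK2 b hb2
    have h2 : ∏ i, (L i : ℝ) ≤ c' ^ (s + 1) * Real.sqrt (Real.sqrt K) := by
      calc ∏ i, (L i : ℝ) ≤ ∏ _i : Fin (s + 1), (c' * (K : ℝ) ^ (1 / (4 * ((s : ℝ) + 1)))) :=
            prod_le_prod (fun i _ => Nat.cast_nonneg _) fun i _ => h1 i
        _ = _ := by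
            rw [prod_const, card_univ, Fintype.card_fin, mul_pow]
            congr 1
            rw [← Real.rpow_natCast, ← Real.rpow_mul hK0.le, Real.sqrt_eq_rpow, Real.sqrt_eq_rpow, ← Real.rpow_mul hK0.le]
            congr 1
            push_cast
            field_simp
            norm_num
    have hq : (1 : ℝ) ≤ Real.sqrt (Real.sqrt K) := by
      rw [Real.one_le_sqrt, Real.one_le_sqrt]
      exact hK1
    have hqq : Real.sqrt (Real.sqrt K) * Real.sqrt (Real.sqrt K) = Real.sqrt K := Real.mul_self_sqrt (Real.sqrt_nonneg _)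
    have h3 : (∏ i, (L i : ℝ)) * (C₂ * Real.sqrt (Real.sqrt K) + 1) ≤ c' ^ (s + 1) * (C₂ + 1) * Real.sqrt K := by
      calc (∏ i, (L i : ℝ)) * (C₂ * Real.sqrt (Real.sqrt K) + 1) ≤ (c' ^ (s + 1) * Real.sqrt (Real.sqrt K)) * ((C₂ + 1) * Real.sqrt (Real.sqrt K)) := by
            apply mul_le_mul h2 _ (by positivity) (by positivity)
            linarith
        _ = c' ^ (s + 1) * (C₂ + 1) * (Real.sqrt (Real.sqrt K) * Real.sqrt (Real.sqrt K)) := by ring
        _ = _ := by rw [hqq]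
    linarith

end Pool.Agent.K4H4.SB
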