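import Pool.Agent.K4H4.SB.Box

set_option autoImplicit false

/-! The reduction of the windows of `s` values to single values. -/

namespace Pool.Agent.K4H4.SB
open Finset
open Pool.Agent.K4H4.CL
open Pool.Agent.TH894.NE (box mem_box card_box Per mean two_mod mean_mono mean_const mean_add mean_mul)

variable {d : ℕ}

lemma prod_lip {s : ℕ} (S P : Fin s → ℝ) (hS : ∀ i, 0 ≤ S i ∧ S i ≤ 1) (hP : ∀ i, 0 ≤ P i ∧ P i ≤ 1) :
    |∏ i, P i - ∏ i, S i| ≤ ∑ i, |P i - S i| := by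
  induction s with
  | zero => simp
  | succ s ih =>
    rw [Fin.prod_univ_succ, Fin.prod_univ_succ, Fin.sum_univ_succ]
    have h1 := ih (fun i => S i.succ) (fun i => P i.succ) (fun i => hS _) (fun i => hP _)
    have e : P 0 * ∏ i : Fin s, P i.succ - S 0 * ∏ i : Fin s, S i.succ =
        (P 0 - S 0) * ∏ i : Fin s, P i.succ + S 0 * (∏ i : Fin s, P i.succ - ∏ i : Fin s, S i.succ) := by ring
    rw [e]
    refine (abs_add_le _ _).trans ?_
    rw [abs_mul, abs_mul]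
    have hp0 : 0 ≤ ∏ i : Fin s, P i.succ := prod_nonneg fun i _ => (hP _).1
    have hp1 : ∏ i : Fin s, P i.succ ≤ 1 := prod_le_one (fun i _ => (hP _).1) fun i _ => (hP _).2
    rw [abs_of_nonneg hp0, abs_of_nonneg (hS 0).1]
    have h2 : |P 0 - S 0| * ∏ i : Fin s, P i.succ ≤ |P 0 - S 0| * 1 := mul_le_mul_of_nonneg_left hp1 (abs_nonneg _)
    have h3 : S 0 * |∏ i : Fin s, P i.succ - ∏ i : Fin s, S i.succ| ≤ 1 * |∏ i : Fin s, P i.succ - ∏ i : Fin s, S i.succ| :=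
      mul_le_mul_of_nonneg_right (hS 0).2 (abs_nonneg _)
    linarith

/-- the difference of two products, to the first order -/
lemma prod_first {s : ℕ} (S : Fin s → ℝ) (hS : ∀ i, 0 ≤ S i ∧ S i ≤ 1) : ∃ α : Fin s → ℝ, (∀ i, 0 ≤ α i ∧ α i ≤ 1) ∧
    ∀ P : Fin s → ℝ, (∀ i, 0 ≤ P i ∧ P i ≤ 1) →
      |∏ i, P i - ∏ i, S i - ∑ i, α i * (P i - S i)| ≤ s * ∑ i, (P i - S i) ^ 2 := by
  induction s with
  | zero => exact ⟨fun _ => 0, fun i => i.elim0, fun P _ => by simp⟩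
  | succ s ih =>
    obtain ⟨α, hα, h⟩ := ih (fun i => S i.succ) (fun i => hS _)
    refine ⟨Fin.cases (∏ i : Fin s, S i.succ) (fun i => S 0 * α i), fun i => ?_, fun P hP => ?_⟩
    · refine Fin.cases ?_ (fun i => ?_) i
      · show 0 ≤ ∏ i : Fin s, S i.succ ∧ ∏ i : Fin s, S i.succ ≤ 1
        exact ⟨prod_nonneg fun i _ => (hS _).1, prod_le_one (fun i _ => (hS _).1) fun i _ => (hS _).2⟩
      · show 0 ≤ S 0 * α i ∧ S 0 * α i ≤ 1
        exact ⟨mul_nonneg (hS 0).1 (hα i).1, mul_le_one₀ (hS 0).2 (hα i).1 (hα i).2⟩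
    · rw [Fin.prod_univ_succ, Fin.prod_univ_succ, Fin.sum_univ_succ, Fin.sum_univ_succ]
      simp only [Fin.cases_zero, Fin.cases_succ]
      have h1 := h (fun i => P i.succ) (fun i => hP _)
      have h2 := prod_lip (fun i => S i.succ) (fun i => P i.succ) (fun i => hS _) (fun i => hP _)
      have e0 : ∑ i : Fin s, S 0 * α i * (P i.succ - S i.succ) = S 0 * ∑ i : Fin s, α i * (P i.succ - S i.succ) := by
        rw [mul_sum]
        exact sum_congr rfl fun i _ => by ring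
      rw [e0]
      have e : P 0 * ∏ i : Fin s, P i.succ - S 0 * ∏ i : Fin s, S i.succ -
          ((∏ i : Fin s, S i.succ) * (P 0 - S 0) + S 0 * ∑ i : Fin s, α i * (P i.succ - S i.succ)) =
          S 0 * (∏ i : Fin s, P i.succ - ∏ i : Fin s, S i.succ - ∑ i : Fin s, α i * (P i.succ - S i.succ)) +
          (P 0 - S 0) * (∏ i : Fin s, P i.succ - ∏ i : Fin s, S i.succ) := by ring
      rw [e]
      refine (abs_add_le _ _).trans ?_
      rw [abs_mul, abs_mul, abs_of_nonneg (hS 0).1]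
      have h3 : S 0 * |∏ i : Fin s, P i.succ - ∏ i : Fin s, S i.succ - ∑ i : Fin s, α i * (P i.succ - S i.succ)| ≤
          1 * (s * ∑ i : Fin s, (P i.succ - S i.succ) ^ 2) :=
        mul_le_mul (hS 0).2 h1 (abs_nonneg _) (by norm_num)
      have h4 : |P 0 - S 0| * |∏ i : Fin s, P i.succ - ∏ i : Fin s, S i.succ| ≤ |P 0 - S 0| * ∑ i : Fin s, |P i.succ - S i.succ| :=
        mul_le_mul_of_nonneg_left h2 (abs_nonneg _)
      have h5 : |P 0 - S 0| * ∑ i : Fin s, |P i.succ - S i.succ| ≤ s * (P 0 - S 0) ^ 2 + ∑ i : Fin s, (P i.succ - S i.succ) ^ 2 := by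
        rw [mul_sum]
        have h6 : ∀ i ∈ (univ : Finset (Fin s)), |P 0 - S 0| * |P i.succ - S i.succ| ≤ (P 0 - S 0) ^ 2 + (P i.succ - S i.succ) ^ 2 := by
          intro i _
          have a1 := sq_abs (P 0 - S 0)
          have a2 := sq_abs (P i.succ - S i.succ)
          nlinarith [sq_nonneg (|P 0 - S 0| - |P i.succ - S i.succ|), sq_nonneg (|P 0 - S 0|), sq_nonneg (|P i.succ - S i.succ|)]
        refine (sum_le_sum h6).trans ?_
        rw [sum_add_distrib, sum_const, card_univ, Fintype.card_fin, nsmul_eq_mul]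
      have h7 : 0 ≤ (P 0 - S 0) ^ 2 := sq_nonneg _
      push_cast
      rw [mul_add]
      have h8 : ((s : ℝ) + 1) * (P 0 - S 0) ^ 2 = s * (P 0 - S 0) ^ 2 + (P 0 - S 0) ^ 2 := by ring
      have h9 : ((s : ℝ) + 1) * ∑ i : Fin s, (P i.succ - S i.succ) ^ 2 = s * ∑ i : Fin s, (P i.succ - S i.succ) ^ 2 + ∑ i : Fin s, (P i.succ - S i.succ) ^ 2 := by ring
      rw [h8, h9]
      linarith

lemma shift_sum (q : ℕ → ℝ) (hq : ∀ l, |q l| ≤ 1) (K i : ℕ) : |∑ k ∈ range K, q (k + i)| ≤ |∑ l ∈ range K, q l| + 2 * i := by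
  have h1 : ∑ k ∈ range K, q (k + i) = ∑ l ∈ range K, q l + (∑ l ∈ Ico K (K + i), q l - ∑ l ∈ range i, q l) := by
    have e1 : ∑ k ∈ range K, q (k + i) = ∑ l ∈ Ico i (K + i), q l := by
      rw [sum_Ico_eq_sum_range]
      have : K + i - i = K := by omega
      rw [this]
      exact sum_congr rfl fun k _ => by rw [add_comm]
    have e2 := sum_range_add_sum_Ico q (show i ≤ K + i by omega)
    have e3 := sum_range_add_sum_Ico q (show K ≤ K + i by omega)
    rw [e1]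
    linarith
  have h2 : |∑ l ∈ Ico K (K + i), q l| ≤ i := by
    refine (abs_sum_le_sum_abs _ _).trans ((sum_le_sum fun l _ => hq l).trans ?_)
    rw [sum_const, Nat.card_Ico, nsmul_eq_mul, mul_one]
    have : K + i - K = i := by omega
    rw [this]
  have h3 : |∑ l ∈ range i, q l| ≤ i := by
    refine (abs_sum_le_sum_abs _ _).trans ((sum_le_sum fun l _ => hq l).trans ?_)
    rw [sum_const, card_range, nsmul_eq_mul, mul_one]
  rw [h1]
  refine (abs_add_le _ _).trans ?_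
  have h4 := abs_sub (∑ l ∈ Ico K (K + i), q l) (∑ l ∈ range i, q l)
  linarith

lemma ex_one (θ : ℕ → (Fin d → ℤ) → ℝ) (K : ℕ) (J : Set ℝ) : ex θ 1 K (fun _ => J) = ∑ l ∈ range K, prop θ (fun x => x ∈ J) l := by
  unfold ex
  refine sum_congr rfl fun k _ => ?_
  rw [Fin.prod_univ_one]
  rfl

/-- the expected number against the product of given masses -/
lemma ex_red (θ : ℕ → (Fin d → ℤ) → ℝ) (s K : ℕ) (J : Fin s → Set ℝ) (S : Fin s → ℝ) (hS : ∀ i, 0 ≤ S i ∧ S i ≤ 1) (v : ℕ → ℝ)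
    (hv : ∀ l i, |prop θ (fun x => x ∈ J i) l - S i| ≤ v l) :
    |ex θ s K J - K * ∏ i, S i| ≤ ∑ i, |ex θ 1 K (fun _ => J i) - K * S i| + 2 * s ^ 2 + s ^ 2 * ∑ l ∈ range (K + s), v l ^ 2 := by
  obtain ⟨α, hα, h⟩ := prod_first S hS
  have h1 : ex θ s K J - K * ∏ i, S i = ∑ k ∈ range K, (∏ i : Fin s, prop θ (fun x => x ∈ J i) (k + i) - ∏ i, S i) := by
    unfold ex
    rw [sum_sub_distrib, sum_const, card_range, nsmul_eq_mul]
  have h2 : ∀ k ∈ range K, |∏ i : Fin s, prop θ (fun x => x ∈ J i) (k + i) - ∏ i, S i - ∑ i, α i * (prop θ (fun x => x ∈ J i) (k + i) - S i)| ≤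
      s * ∑ i : Fin s, v (k + i) ^ 2 := by
    intro k _
    refine (h (fun i => prop θ (fun x => x ∈ J i) (k + i)) (fun i => ⟨prop_nonneg θ _ _, prop_le_one θ _ _⟩)).trans ?_
    apply mul_le_mul_of_nonneg_left _ (Nat.cast_nonneg _)
    apply sum_le_sum
    intro i _
    rw [sq_le_sq]
    exact (hv (k + i) i).trans (le_abs_self _)
  have h3 : |∑ k ∈ range K, (∏ i : Fin s, prop θ (fun x => x ∈ J i) (k + i) - ∏ i, S i) -
      ∑ k ∈ range K, ∑ i, α i * (prop θ (fun x => x ∈ J i) (k + i) - S i)| ≤ s ^ 2 * ∑ l ∈ range (K + s), v l ^ 2 := by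
    rw [← sum_sub_distrib]
    refine (abs_sum_le_sum_abs _ _).trans ((sum_le_sum h2).trans ?_)
    rw [← mul_sum, sum_comm]
    have h4 : ∀ i ∈ (univ : Finset (Fin s)), ∑ k ∈ range K, v (k + i) ^ 2 ≤ ∑ l ∈ range (K + s), v l ^ 2 :=
      fun i _ => sum_shift (fun l => v l ^ 2) (fun l => sq_nonneg _) K s i i.2.le
    calc (s : ℝ) * ∑ i : Fin s, ∑ k ∈ range K, v (k + i) ^ 2 ≤ s * (s * ∑ l ∈ range (K + s), v l ^ 2) := by
          apply mul_le_mul_of_nonneg_left _ (Nat.cast_nonneg _)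
          refine (sum_le_sum h4).trans ?_
          rw [sum_const, card_univ, Fintype.card_fin, nsmul_eq_mul]
      _ = _ := by ring
  have h5 : |∑ k ∈ range K, ∑ i, α i * (prop θ (fun x => x ∈ J i) (k + i) - S i)| ≤ ∑ i, |ex θ 1 K (fun _ => J i) - K * S i| + 2 * s ^ 2 := by
    rw [sum_comm]
    refine (abs_sum_le_sum_abs _ _).trans ?_
    have h6 : ∀ i ∈ (univ : Finset (Fin s)), |∑ k ∈ range K, α i * (prop θ (fun x => x ∈ J i) (k + i) - S i)| ≤
        |ex θ 1 K (fun _ => J i) - K * S i| + 2 * s := by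
      intro i _
      rw [← mul_sum, abs_mul, abs_of_nonneg (hα i).1]
      have h7 := shift_sum (fun l => prop θ (fun x => x ∈ J i) l - S i) (fun l => by
        have a1 := prop_nonneg θ (fun x => x ∈ J i) l
        have a2 := prop_le_one θ (fun x => x ∈ J i) l
        rw [abs_le]
        constructor <;> linarith [(hS i).1, (hS i).2]) K i
      have h8 : ∑ l ∈ range K, (prop θ (fun x => x ∈ J i) l - S i) = ex θ 1 K (fun _ => J i) - K * S i := by
        rw [ex_one, sum_sub_distrib, sum_const, card_range, nsmul_eq_mul]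
      rw [h8] at h7
      have h9 : (i : ℝ) ≤ s := by exact_mod_cast i.2.le
      calc α i * |∑ k ∈ range K, (prop θ (fun x => x ∈ J i) (k + i) - S i)| ≤ 1 * |∑ k ∈ range K, (prop θ (fun x => x ∈ J i) (k + i) - S i)| :=
            mul_le_mul_of_nonneg_right (hα i).2 (abs_nonneg _)
        _ ≤ _ := by
          rw [one_mul]
          refine h7.trans ?_
          linarith
    refine (sum_le_sum h6).trans ?_
    rw [sum_add_distrib, sum_const, card_univ, Fintype.card_fin, nsmul_eq_mul]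
    linarith
  rw [h1]
  have h10 := abs_sub_abs_le_abs_sub (∑ k ∈ range K, (∏ i : Fin s, prop θ (fun x => x ∈ J i) (k + i) - ∏ i, S i))
    (∑ k ∈ range K, ∑ i, α i * (prop θ (fun x => x ∈ J i) (k + i) - S i))
  linarith

open Classical in
/-- **Reduction.** -/
theorem reduction (d s : ℕ) (hs : 1 ≤ s) (ε : ℝ) (hε : 0 < ε) : ∃ (C : ℕ) (A : ℝ), 0 ≤ A ∧ ∀ θ : ℕ → (Fin d → ℤ) → ℝ, PerV θ →
    ∀ (K : ℕ) (N : Fin d → ℕ) (u : Fin d → ℤ), C ≤ K → (∀ i, K ^ C ≤ N i) → ∃ B : Finset (Fin d → ℕ),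
      (B.card : ℝ) ≤ ε * ∏ i, (N i : ℝ) ∧ ∀ n ∈ par N, n ∉ B → ∀ K', 1 ≤ K' → K' ≤ K → ∀ J : Fin s → Set ℝ, (∀ i, (J i).OrdConnected) →
        |cnt θ s K' J (fun i => u i + n i) - ex θ s K' J| ≤ A * Real.sqrt K' * (1 + Real.log K') ^ 2 ∧
        ∀ (S : Fin s → ℝ) (v : ℕ → ℝ), (∀ i, 0 ≤ S i ∧ S i ≤ 1) → (∀ l i, |prop θ (fun x => x ∈ J i) l - S i| ≤ v l) →
        |cnt θ s K' J (fun i => u i + n i) - K' * ∏ i, S i| ≤ ∑ i, |cnt θ 1 K' (fun _ => J i) (fun i => u i + n i) - K' * S i| +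
          s ^ 2 * ∑ l ∈ range (K' + s), v l ^ 2 + A * Real.sqrt K' * (1 + Real.log K') ^ 2 := by
  obtain ⟨C₁, A₁, hA₁, h1⟩ := unif d s hs (ε / 2) (by linarith)
  obtain ⟨C₂, A₂, hA₂, h2⟩ := unif d 1 le_rfl (ε / 2) (by linarith)
  refine ⟨C₁ + C₂ + 1, A₁ + s * A₂ + 2 * s ^ 2, by positivity, fun θ hθ K N u hK hN => ?_⟩
  have hK1 : 1 ≤ K := by omega
  obtain ⟨B₁, hB₁, hg₁⟩ := h1 θ hθ K N u (by omega) (fun i => (Nat.pow_le_pow_right hK1 (by omega)).trans (hN i))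
  obtain ⟨B₂, hB₂, hg₂⟩ := h2 θ hθ K N u (by omega) (fun i => (Nat.pow_le_pow_right hK1 (by omega)).trans (hN i))
  refine ⟨B₁ ∪ B₂, ?_, fun n hn hnB K' hK'1 hK' J hJ => ?_⟩
  · have h3 : ((B₁ ∪ B₂).card : ℝ) ≤ B₁.card + B₂.card := by exact_mod_cast card_union_le B₁ B₂
    linarith
  · rw [mem_union, not_or] at hnB
    have a1 := hg₁ n hn hnB.1 K' hK'1 hK' J hJ
    have a2 : ∀ i, |cnt θ 1 K' (fun _ => J i) (fun i => u i + n i) - ex θ 1 K' (fun _ => J i)| ≤ A₂ * Real.sqrt K' * (1 + Real.log K') ^ 2 :=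
      fun i => hg₂ n hn hnB.2 K' hK'1 hK' (fun _ => J i) (fun _ => hJ i)
    obtain ⟨X, hX⟩ : ∃ X, X = Real.sqrt K' * (1 + Real.log K') ^ 2 := ⟨_, rfl⟩
    have hK'r : (1 : ℝ) ≤ K' := by exact_mod_cast hK'1
    have hX1 : 1 ≤ X := by
      rw [hX]
      have b1 := Real.one_le_sqrt.2 hK'r
      have b2 : (1 : ℝ) ≤ (1 + Real.log K') ^ 2 := one_le_pow₀ (by have := Real.log_nonneg hK'r; linarith)
      nlinarith
    have e : ∀ a : ℝ, a * Real.sqrt K' * (1 + Real.log K') ^ 2 = a * X := fun a => by rw [hX, mul_assoc]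
    rw [e] at a1 a2
    rw [e]
    have hs0 : (0 : ℝ) ≤ s := Nat.cast_nonneg s
    have hs2 : (0 : ℝ) ≤ 2 * (s : ℝ) ^ 2 := by positivity
    refine ⟨?_, fun S v hS hv => ?_⟩
    · refine a1.trans ?_
      apply mul_le_mul_of_nonneg_right _ (by linarith)
      have : 0 ≤ (s : ℝ) * A₂ := mul_nonneg hs0 hA₂
      linarith
    · have a3 := ex_red θ s K' J S hS v hv
      have a4 : ∑ i, |ex θ 1 K' (fun _ => J i) - K' * S i| ≤ ∑ i, |cnt θ 1 K' (fun _ => J i) (fun i => u i + n i) - K' * S i| + s * (A₂ * X) := by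
        calc ∑ i, |ex θ 1 K' (fun _ => J i) - K' * S i| ≤ ∑ i, (|cnt θ 1 K' (fun _ => J i) (fun i => u i + n i) - K' * S i| + A₂ * X) := by
              apply sum_le_sum
              intro i _
              have b1 := a2 i
              have b2 := abs_sub_le (ex θ 1 K' (fun _ => J i)) (cnt θ 1 K' (fun _ => J i) (fun i => u i + n i)) (K' * S i)
              rw [abs_sub_comm (ex θ 1 K' (fun _ => J i)) (cnt θ 1 K' (fun _ => J i) (fun i => u i + n i))] at b2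
              linarith
          _ = _ := by rw [sum_add_distrib, sum_const, card_univ, Fintype.card_fin, nsmul_eq_mul]
      have a5 := abs_sub_le (cnt θ s K' J (fun i => u i + n i)) (ex θ s K' J) (K' * ∏ i, S i)
      have a6 : 2 * (s : ℝ) ^ 2 ≤ 2 * s ^ 2 * X := by nlinarith
      have e2 : (A₁ + s * A₂ + 2 * s ^ 2) * X = A₁ * X + s * (A₂ * X) + 2 * s ^ 2 * X := by ring
      rw [e2]
      linarith

end Pool.Agent.K4H4.SB
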